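import Pool.Agent.H80.GC.Blk

/-!
# Module G5: lower bounds for the main exceptional pairs
-/

set_option autoImplicit false

open Finset Pool.Agent.H23.GW Pool.Agent.H23.GC
open scoped Classical Nat

namespace Pool.Agent.H80.GC4

noncomputable section

variable {ι : Type} [Fintype ι] {G : Type} [AddCommGroup G] {ev : (ι → ℤ) →+ G}

theorem ell_vs_le {κ : Type} [Fintype κ] (w : κ → ι × Bool) (S : Finset κ)
    (h : ∀ k, ∃ j ∈ S, w j = w k) : ell (vs w) ≤ #S := by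
  have h1 : (univ.filter fun i => vs w i ≠ 0) ⊆ S.image fun k => (w k).1 := by
    intro i hi
    simp only [mem_filter, mem_univ, true_and] at hi
    rw [Pool.Agent.H59.GC.vs_apply] at hi
    have h2 : Pool.Agent.H59.GC.cnt w (i, true) ≠ 0 ∨ Pool.Agent.H59.GC.cnt w (i, false) ≠ 0 := by
      by_contra h3
      push Not at h3
      rw [h3.1, h3.2] at hi
      exact hi (by norm_num)
    have h3 : ∃ k, (w k).1 = i := by
      rcases h2 with h2 | h2
      · unfold Pool.Agent.H59.GC.cnt at h2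
        obtain ⟨k, hk⟩ := card_pos.1 (Nat.pos_of_ne_zero h2)
        simp only [mem_filter, mem_univ, true_and] at hk
        exact ⟨k, by rw [hk]⟩
      · unfold Pool.Agent.H59.GC.cnt at h2
        obtain ⟨k, hk⟩ := card_pos.1 (Nat.pos_of_ne_zero h2)
        simp only [mem_filter, mem_univ, true_and] at hk
        exact ⟨k, by rw [hk]⟩
    obtain ⟨k, hk⟩ := h3
    obtain ⟨j, hj, hjk⟩ := h k
    rw [mem_image]
    exact ⟨j, hj, by rw [hjk, hk]⟩
  unfold ell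
  exact (card_le_card h1).trans card_image_le

theorem triple_entry {w : Fin 5 → ι × Bool} {v : ι → ℤ} (h : vs w = v) (hv : nrm v = 5)
    (h1 : w 0 = w 1) (h2 : w 1 = w 2) : ∃ x, 3 ≤ (v x).natAbs := by
  refine ⟨(w 0).1, ?_⟩
  have h3 := Pool.Agent.H59.GC.cnt_of_vs h (by rw [hv, Fintype.card_fin]) (w 0)
  have h4 := Pool.Agent.H59.GC.mu_le v (w 0)
  have h5 : 3 ≤ Pool.Agent.H59.GC.cnt w (w 0) := by
    unfold Pool.Agent.H59.GC.cnt
    rw [← show #({0, 1, 2} : Finset (Fin 5)) = 3 by decide]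
    refine card_le_card fun k hk => ?_
    simp only [mem_insert, mem_singleton] at hk
    simp only [mem_filter, mem_univ, true_and]
    rcases hk with rfl | rfl | rfl
    · rfl
    · exact h1.symm
    · exact (h1.trans h2).symm
  omega

theorem ell_triple {w : Fin 5 → ι × Bool} (h1 : w 0 = w 1) (h2 : w 1 = w 2) :
    ell (vs w) ≤ 3 := by
  have h := ell_vs_le w {0, 3, 4} (by
    intro k
    fin_cases k
    · exact ⟨0, by decide, rfl⟩
    · exact ⟨0, by decide, h1⟩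
    · exact ⟨0, by decide, h1.trans h2⟩
    · exact ⟨3, by decide, rfl⟩
    · exact ⟨4, by decide, rfl⟩)
  exact h

theorem ell_double {w : Fin 5 → ι × Bool} (h1 : w 0 = w 1) (h2 : w 2 = w 3) :
    ell (vs w) ≤ 3 := by
  have h := ell_vs_le w {0, 2, 4} (by
    intro k
    fin_cases k
    · exact ⟨0, by decide, rfl⟩
    · exact ⟨0, by decide, h1⟩
    · exact ⟨2, by decide, rfl⟩
    · exact ⟨2, by decide, h2⟩
    · exact ⟨4, by decide, rfl⟩)
  exact h

theorem ell_single {w : Fin 4 → ι × Bool} (h1 : w 0 = w 1) : ell (vs w) ≤ 3 := by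
  have h := ell_vs_le w {0, 2, 3} (by
    intro k
    fin_cases k
    · exact ⟨0, by decide, rfl⟩
    · exact ⟨0, by decide, h1⟩
    · exact ⟨2, by decide, rfl⟩
    · exact ⟨3, by decide, rfl⟩)
  exact h

theorem sum_two {α : Type} (S A B : Finset α) (f : α → ℕ) (a b : ℕ)
    (h : ∀ q ∈ S, f q ≠ 0 → (q ∈ A ∧ f q ≤ a) ∨ (q ∈ B ∧ f q ≤ b)) :
    ∑ q ∈ S, f q ≤ a * #A + b * #B := by
  have h1 : ∑ q ∈ S, f q ≤ ∑ q ∈ S, ((if q ∈ A then a else 0) + (if q ∈ B then b else 0)) := by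
    refine sum_le_sum fun q hq => ?_
    by_cases h0 : f q = 0
    · rw [h0]
      exact Nat.zero_le _
    · rcases h q hq h0 with ⟨h2, h3⟩ | ⟨h2, h3⟩
      · rw [if_pos h2]
        omega
      · rw [if_pos h2]
        omega
  refine h1.trans ?_
  rw [sum_add_distrib]
  have h2 : ∀ (D : Finset α) (d : ℕ), ∑ q ∈ S, (if q ∈ D then d else 0) ≤ d * #D := by
    intro D d
    rw [← sum_filter, sum_const, smul_eq_mul, mul_comm]
    refine Nat.mul_le_mul_left _ (card_le_card fun q hq => ?_)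
    exact (mem_filter.1 hq).2
  exact Nat.add_le_add (h2 A a) (h2 B b)

/-- positions: the first block contains `0, 1, 2, 7, 8`, the second `3, 4, 5, 6, 9` -/
def e55 : Fin 5 ⊕ Fin 5 ≃ Fin 10 where
  toFun := Sum.elim ![0, 1, 2, 7, 8] ![3, 4, 5, 6, 9]
  invFun := ![Sum.inl 0, Sum.inl 1, Sum.inl 2, Sum.inr 0, Sum.inr 1, Sum.inr 2, Sum.inr 3,
    Sum.inl 3, Sum.inl 4, Sum.inr 4]
  left_inv := by
    intro x
    revert x
    decide
  right_inv := by
    intro x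
    revert x
    decide

/-- positions: the first block contains `4, 5, 6, 7`, the second `0, 1, 2, 3, 8` -/
def e45 : Fin 4 ⊕ Fin 5 ≃ Fin 9 where
  toFun := Sum.elim ![4, 5, 6, 7] ![0, 1, 2, 3, 8]
  invFun := ![Sum.inr 0, Sum.inr 1, Sum.inr 2, Sum.inr 3, Sum.inl 0, Sum.inl 1, Sum.inl 2,
    Sum.inl 3, Sum.inr 4]
  left_inv := by
    intro x
    revert x
    decide
  right_inv := by
    intro x
    revert x
    decide

theorem ga_pairs (hSY : T_SY) (ev : (ι → ℤ) →+ G) :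
    ga ev = ∑ q ∈ Vn ι 5 ×ˢ Vn ι 5 with ev q.1 = ev q.2 ∧ nrm (q.1 - q.2) = 5 + 5,
      #(wds q.1 fun w : Fin 5 → ι × Bool => w 0 = w 1 ∧ w 1 = w 2) *
        #(wds (-q.2) fun u : Fin 5 → ι × Bool => u 0 = u 1 ∧ u 2 = u 3) := by
  have h := (hSY ι G ev).1 (Fin 5 ⊕ Fin 5) (Fin 10) e55
    (fun z => z 0 = z 1 ∧ z 1 = z 2 ∧ z 3 = z 4 ∧ z 5 = z 6)
  have h2 := (hSY ι G ev).2 (Fin 5) (Fin 5) (fun w => w 0 = w 1 ∧ w 1 = w 2)
    (fun u => u 0 = u 1 ∧ u 2 = u 3)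
  simp only [Fintype.card_fin] at h2
  unfold ga
  refine Eq.trans (by congr!) (h.symm.trans (Eq.trans ?_ (h2.trans ?_)))
  · congr 1
    ext z
    simp only [mem_filter]
    rw [and_assoc]
    exact Iff.rfl
  · refine sum_congr (by congr!) fun q _ => ?_
    unfold wds
    congr!

theorem al_pairs (hSY : T_SY) (ev : (ι → ℤ) →+ G) :
    al ev = ∑ q ∈ Vn ι 4 ×ˢ Vn ι 5 with ev q.1 = ev q.2 ∧ nrm (q.1 - q.2) = 4 + 5,
      #(wds q.1 fun w : Fin 4 → ι × Bool => w 0 = w 1) *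
        #(wds (-q.2) fun u : Fin 5 → ι × Bool => u 0 = u 1 ∧ u 2 = u 3) := by
  have h := (hSY ι G ev).1 (Fin 4 ⊕ Fin 5) (Fin 9) e45
    (fun z => z 0 = z 1 ∧ z 2 = z 3 ∧ z 4 = z 5)
  have h2 := (hSY ι G ev).2 (Fin 4) (Fin 5) (fun w => w 0 = w 1)
    (fun u => u 0 = u 1 ∧ u 2 = u 3)
  simp only [Fintype.card_fin] at h2
  unfold al
  refine Eq.trans (by congr!) (h.symm.trans (Eq.trans ?_ (h2.trans ?_)))
  · congr 1
    ext z
    simp only [mem_filter]
    refine and_congr_right fun _ => ?_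
    rw [← and_assoc, and_comm]
    exact Iff.rfl
  · refine sum_congr (by congr!) fun q _ => ?_
    unfold wds
    congr!

theorem wds_le {κ : Type} [Fintype κ] {v : ι → ℤ} (hv : nrm v = Fintype.card κ)
    (Q : (κ → ι × Bool) → Prop) : #(wds v Q) ≤ (Fintype.card κ)! := by
  have h := ((Pool.Agent.H59.GC.w ι κ).2 v hv).2.1
  refine (card_le_card fun w hw => ?_).trans h
  rw [mem_wds] at hw
  simp only [mem_filter, mem_univ, true_and]
  exact hw.1

theorem g5 (hSY : T_SY) (hN5 : T_N5) (hW2 : T_W2) : T_G5 := by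
  obtain ⟨C, hC⟩ := hN5
  refine ⟨14400 * C, ?_⟩
  intro ι _ G _ _ ev hPC hodd hm
  obtain ⟨hA, hB⟩ := hC ι G ev hPC hodd hm
  have hV := @Pool.Agent.H2.GC.mem_Vn ι _
  have f5 : (5 : ℕ)! = 120 := by decide
  have f4 : (4 : ℕ)! = 24 := by decide
  constructor
  · have h1 : ga ev ≤ 4 * P5 ev t3 t22 + 14400 *
        #{q ∈ Vn ι 5 ×ˢ Vn ι 5 | ev q.1 = ev q.2 ∧ q.1 ≠ q.2 ∧ ell q.1 + ell q.2 ≤ 6 ∧
          ell q.1 ≤ 4 ∧ ell q.2 ≤ 4 ∧
          ¬ (t3 q.1 ∧ t22 q.2) ∧ ¬ (t22 q.1 ∧ t3 q.2) ∧ ¬ (t1 q.1 ∧ t32 q.2) ∧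
          ¬ (t32 q.1 ∧ t1 q.2)} := by
      rw [ga_pairs hSY]
      unfold P5
      refine sum_two _ _ _ _ _ _ ?_
      intro q hq hne
      simp only [mem_filter, mem_product, hV] at hq ⊢
      obtain ⟨⟨hq1, hq2⟩, he, hn⟩ := hq
      have hne12 : q.1 ≠ q.2 := by
        intro h
        rw [h, sub_self, Pool.Agent.H2.GC.nrm_zero] at hn
        omega
      have hq2' : nrm (-q.2) = 5 := by rw [Pool.Agent.H2.GC.nrm_neg, hq2]
      have hp1 : #(wds q.1 fun w : Fin 5 → ι × Bool => w 0 = w 1 ∧ w 1 = w 2) ≠ 0 :=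
        left_ne_zero_of_mul hne
      have hp2 : #(wds (-q.2) fun u : Fin 5 → ι × Bool => u 0 = u 1 ∧ u 2 = u 3) ≠ 0 :=
        right_ne_zero_of_mul hne
      obtain ⟨w, hw⟩ := card_pos.1 (Nat.pos_of_ne_zero hp1)
      obtain ⟨u, hu⟩ := card_pos.1 (Nat.pos_of_ne_zero hp2)
      rw [mem_wds] at hw hu
      obtain ⟨hw0, hw1, hw2⟩ := hw
      obtain ⟨hu0, hu1, hu2⟩ := hu
      have l1 : ell q.1 ≤ 3 := by
        rw [← hw0]
        exact ell_triple hw1 hw2
      have l2 : ell q.2 ≤ 3 := by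
        rw [← Pool.Agent.H59.GC.ell_neg, ← hu0]
        exact ell_double hu1 hu2
      obtain ⟨x, hx⟩ := triple_entry hw0 hq1 hw1 hw2
      by_cases ht : t3 q.1 ∧ t22 q.2
      · left
        refine ⟨⟨⟨hq1, hq2⟩, he, hne12, ht.1, ht.2⟩, ?_⟩
        have a1 := (hW2 ι (Fin 5) q.1 (by rw [hq1, Fintype.card_fin])).2.2.2.2 0 1 2 (by decide)
          (by rw [ht.1.1, Fintype.card_fin]) ⟨x, hx⟩
        have a2 := (hW2 ι (Fin 5) (-q.2) (by rw [hq2', Fintype.card_fin])).2.2.2.1 0 1 2 3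
          (by decide) (by rw [Pool.Agent.H59.GC.ell_neg, ht.2.1, Fintype.card_fin])
          (fun x => by
            rw [Pi.neg_apply, Int.natAbs_neg]
            exact ht.2.2 x)
        rw [Fintype.card_fin] at a1 a2
        have b1 : #(wds q.1 fun w : Fin 5 → ι × Bool => w 0 = w 1 ∧ w 1 = w 2) = 2 := by
          refine Eq.trans ?_ (a1.trans (by decide))
          unfold wds
          congr!
        have b2 : #(wds (-q.2) fun u : Fin 5 → ι × Bool => u 0 = u 1 ∧ u 2 = u 3) = 2 := by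
          refine Eq.trans ?_ (a2.trans (by decide))
          unfold wds
          congr!
        rw [b1, b2]
      · right
        refine ⟨⟨⟨hq1, hq2⟩, he, hne12, by omega, by omega, by omega, ht, ?_, ?_, ?_⟩, ?_⟩
        · rintro ⟨⟨-, h1⟩, -⟩
          have := h1 x
          omega
        · rintro ⟨h1, -⟩
          unfold t1 at h1
          omega
        · rintro ⟨-, h1⟩
          unfold t1 at h1
          omega
        · have c1 := wds_le (κ := Fin 5) (v := q.1) (by rw [hq1, Fintype.card_fin])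
            (fun w : Fin 5 → ι × Bool => w 0 = w 1 ∧ w 1 = w 2)
          have c2 := wds_le (κ := Fin 5) (v := -q.2) (by rw [hq2', Fintype.card_fin])
            (fun u : Fin 5 → ι × Bool => u 0 = u 1 ∧ u 2 = u 3)
          rw [Fintype.card_fin, f5] at c1 c2
          exact Nat.mul_le_mul c1 c2
    have h2 : (ga ev : ℝ) ≤ 4 * P5 ev t3 t22 + 14400 *
        (#{q ∈ Vn ι 5 ×ˢ Vn ι 5 | ev q.1 = ev q.2 ∧ q.1 ≠ q.2 ∧ ell q.1 + ell q.2 ≤ 6 ∧
          ell q.1 ≤ 4 ∧ ell q.2 ≤ 4 ∧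
          ¬ (t3 q.1 ∧ t22 q.2) ∧ ¬ (t22 q.1 ∧ t3 q.2) ∧ ¬ (t1 q.1 ∧ t32 q.2) ∧
          ¬ (t32 q.1 ∧ t1 q.2)} : ℝ) := by
      exact_mod_cast h1
    linarith
  · have h1 : al ev ≤ 4 * P4 ev e1 t22 + 14400 *
        #{q ∈ Vn ι 4 ×ˢ Vn ι 5 | ev q.1 = ev q.2 ∧ ell q.1 + ell q.2 ≤ 6 ∧
          ell q.1 ≤ 3 ∧ ell q.2 ≤ 4 ∧ ¬ (e1 q.1 ∧ t22 q.2) ∧ ¬ (e22 q.1 ∧ t1 q.2)} := by
      rw [al_pairs hSY]
      unfold P4
      refine sum_two _ _ _ _ _ _ ?_
      intro q hq hne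
      simp only [mem_filter, mem_product, hV] at hq ⊢
      obtain ⟨⟨hq1, hq2⟩, he, hn⟩ := hq
      have hq2' : nrm (-q.2) = 5 := by rw [Pool.Agent.H2.GC.nrm_neg, hq2]
      have hp1 : #(wds q.1 fun w : Fin 4 → ι × Bool => w 0 = w 1) ≠ 0 :=
        left_ne_zero_of_mul hne
      have hp2 : #(wds (-q.2) fun u : Fin 5 → ι × Bool => u 0 = u 1 ∧ u 2 = u 3) ≠ 0 :=
        right_ne_zero_of_mul hne
      obtain ⟨w, hw⟩ := card_pos.1 (Nat.pos_of_ne_zero hp1)
      obtain ⟨u, hu⟩ := card_pos.1 (Nat.pos_of_ne_zero hp2)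
      rw [mem_wds] at hw hu
      obtain ⟨hw0, hw1⟩ := hw
      obtain ⟨hu0, hu1, hu2⟩ := hu
      have l1 : ell q.1 ≤ 3 := by
        rw [← hw0]
        exact ell_single hw1
      have l2 : ell q.2 ≤ 3 := by
        rw [← Pool.Agent.H59.GC.ell_neg, ← hu0]
        exact ell_double hu1 hu2
      by_cases ht : e1 q.1 ∧ t22 q.2
      · left
        refine ⟨⟨⟨hq1, hq2⟩, he, ht.1, ht.2⟩, ?_⟩
        have a1 := ((Pool.Agent.H59.GC.w ι (Fin 4)).2 q.1
          (by rw [hq1, Fintype.card_fin])).2.2.2.1 0 1 (by decide)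
          (by rw [show ell q.1 = 3 from ht.1, Fintype.card_fin])
        have a2 := (hW2 ι (Fin 5) (-q.2) (by rw [hq2', Fintype.card_fin])).2.2.2.1 0 1 2 3
          (by decide) (by rw [Pool.Agent.H59.GC.ell_neg, ht.2.1, Fintype.card_fin])
          (fun x => by
            rw [Pi.neg_apply, Int.natAbs_neg]
            exact ht.2.2 x)
        rw [Fintype.card_fin] at a1 a2
        have b1 : #(wds q.1 fun w : Fin 4 → ι × Bool => w 0 = w 1) = 2 := by
          refine Eq.trans ?_ (a1.trans (by decide))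
          unfold wds
          congr!
        have b2 : #(wds (-q.2) fun u : Fin 5 → ι × Bool => u 0 = u 1 ∧ u 2 = u 3) = 2 := by
          refine Eq.trans ?_ (a2.trans (by decide))
          unfold wds
          congr!
        rw [b1, b2]
      · right
        refine ⟨⟨⟨hq1, hq2⟩, he, by omega, by omega, by omega, ht, ?_⟩, ?_⟩
        · rintro ⟨-, h1⟩
          unfold t1 at h1
          omega
        · have c1 := wds_le (κ := Fin 4) (v := q.1) (by rw [hq1, Fintype.card_fin])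
            (fun w : Fin 4 → ι × Bool => w 0 = w 1)
          have c2 := wds_le (κ := Fin 5) (v := -q.2) (by rw [hq2', Fintype.card_fin])
            (fun u : Fin 5 → ι × Bool => u 0 = u 1 ∧ u 2 = u 3)
          rw [Fintype.card_fin] at c1 c2
          rw [f4] at c1
          rw [f5] at c2
          exact (Nat.mul_le_mul c1 c2).trans (by norm_num)
    have h2 : (al ev : ℝ) ≤ 4 * P4 ev e1 t22 + 14400 *
        (#{q ∈ Vn ι 4 ×ˢ Vn ι 5 | ev q.1 = ev q.2 ∧ ell q.1 + ell q.2 ≤ 6 ∧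
          ell q.1 ≤ 3 ∧ ell q.2 ≤ 4 ∧ ¬ (e1 q.1 ∧ t22 q.2) ∧ ¬ (e22 q.1 ∧ t1 q.2)} : ℝ) := by
      exact_mod_cast h1
    linarith

end

end Pool.Agent.H80.GC4
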