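import Pool.Agent.H80.GC.G5

/-!
# Module L4: lower bounds
-/

set_option autoImplicit false

open Finset Pool.Agent.H23.GW Pool.Agent.H23.GC
open scoped Classical Nat

namespace Pool.Agent.H80.GC4

noncomputable section

variable {ι : Type} [Fintype ι] {G : Type} [AddCommGroup G] {ev : (ι → ℤ) →+ G}

open Pool.Agent.H59.GC (exc exc_add opp opp_ne nonreduced card_det card_pat card_nonred ext_bound
  pc_unique)
open Pool.Agent.H2.GC (nrm_triangle nrm_neg)

/-! ### Vectors -/

theorem ell_sub_le (a b : ι → ℤ) : ell (a - b) ≤ ell a + ell b := by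
  unfold ell
  refine le_trans (card_le_card ?_) (card_union_le _ _)
  intro x hx
  simp only [mem_filter, mem_univ, true_and, mem_union, Pi.sub_apply] at hx ⊢
  by_contra h
  push Not at h
  exact hx (by rw [h.1, h.2, sub_zero])

theorem ell_sub_lt (a b : ι → ℤ) (x : ι) (ha : a x ≠ 0) (hb : b x ≠ 0) :
    ell (a - b) + 1 ≤ ell a + ell b := by
  unfold ell
  rw [← card_union_add_card_inter]
  refine Nat.add_le_add (card_le_card ?_) ?_
  · intro y hy
    simp only [mem_filter, mem_univ, true_and, mem_union, Pi.sub_apply] at hy ⊢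
    by_contra h
    push Not at h
    exact hy (by rw [h.1, h.2, sub_zero])
  · rw [Nat.one_le_iff_ne_zero, card_ne_zero]
    exact ⟨x, by simp [ha, hb]⟩

theorem natAbs_le_of (r : ι → ℤ) (x : ι) (hx : r x ≠ 0) :
    (r x).natAbs + ell r ≤ nrm r + 1 := by
  have h := exc_add r
  have h1 : exc r x ≤ ∑ i, exc r i := single_le_sum (fun _ _ => Nat.zero_le _) (mem_univ x)
  have h2 : (r x).natAbs ≤ exc r x + 1 := Pool.Agent.H59.GC.exc_natAbs r x
  omega

/-! ### Counting words with a given set of vectors -/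

theorem card_vs_mem {κ : Type} [Fintype κ] (S : Finset (ι → ℤ)) :
    #{z ∈ Zr ev κ | vs z ∈ S} ≤ (Fintype.card κ)! * #S := by
  refine card_le_mul_card_image_of_maps_to (f := fun z : κ → ι × Bool => vs z) ?_ _ ?_
  · intro z hz
    simp only [mem_filter] at hz
    exact hz.2
  · intro v _
    by_cases hne : ∃ z ∈ Zr ev κ, vs z = v
    · obtain ⟨z, hz, hzv⟩ := hne
      simp only [Zr, mem_filter, mem_univ, true_and] at hz
      have h := ((Pool.Agent.H59.GC.w ι κ).2 v (by rw [← hzv]; exact hz.1)).2.1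
      refine (card_le_card fun w hw => ?_).trans h
      simp only [mem_filter, mem_univ, true_and] at hw ⊢
      exact hw.2
    · refine le_trans (le_of_eq ?_) (Nat.zero_le _)
      rw [card_eq_zero, filter_eq_empty_iff]
      intro z hz hzv
      exact hne ⟨z, (mem_filter.1 hz).1, hzv⟩

theorem elim_mem_of {κ κ' : Type} [Fintype κ] [Fintype κ'] {w : κ → ι × Bool}
    {u : κ' → ι × Bool} {r : ι → ℤ} (hu : vs u = -r) (hev : ev r = ev (vs w))
    (hn : nrm (vs w - r) = Fintype.card κ + Fintype.card κ') :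
    Sum.elim w u ∈ Zr ev (κ ⊕ κ') := by
  simp only [Zr, mem_filter, mem_univ, true_and]
  rw [Pool.Agent.H59.GC.vs_sum, hu, ← sub_eq_add_neg, Fintype.card_sum, map_sub, hev, sub_self]
  exact ⟨hn, rfl⟩

theorem wds_sub_cont {κ κ' : Type} [Fintype κ] [Fintype κ'] {w : κ → ι × Bool}
    {r : ι → ℤ} (hev : ev r = ev (vs w))
    (hn : nrm (vs w - r) = Fintype.card κ + Fintype.card κ') (Q : (κ' → ι × Bool) → Prop) :
    #(wds (-r) Q) ≤ #(cont ev w Q) := by
  refine card_le_card fun u hu => ?_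
  rw [mem_wds] at hu
  rw [mem_cont]
  exact ⟨elim_mem_of hu.1 hev hn, hu.2⟩

/-! ### The words `(x, x, y, y, u, u)` -/

/-- the positions of the three letters -/
def h6 : Fin 6 → Fin 3 := ![0, 0, 1, 1, 2, 2]

theorem W6b_eq {w : Fin 6 → ι × Bool} (hw : w ∈ W6b ι) : w = ![w 0, w 2, w 4] ∘ h6 := by
  rw [mem_W6b] at hw
  ext1 a
  fin_cases a
  · rfl
  · exact hw.1.symm
  · rfl
  · exact hw.2.1.symm
  · rfl
  · exact hw.2.2.symm

theorem le_cardW6b : (2 * Fintype.card ι) ^ 3 ≤ #(W6b ι) := by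
  have h : #(univ : Finset (Fin 3 → ι × Bool)) ≤ #(W6b ι) := by
    refine card_le_card_of_injOn (fun v => v ∘ h6) ?_ ?_
    · intro v _
      rw [mem_coe, mem_W6b]
      exact ⟨rfl, rfl, rfl⟩
    · intro v _ v' _ h
      ext1 a
      fin_cases a
      · exact congrFun h 0
      · exact congrFun h 2
      · exact congrFun h 4
  rw [card_univ, Fintype.card_fun, card_letters, Fintype.card_fin] at h
  exact h

theorem nonred6 : #{w ∈ W6b ι | nrm (vs w) ≠ 6} ≤ 9 * (2 * Fintype.card ι) ^ 2 := by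
  have h1 : #{w ∈ W6b ι | nrm (vs w) ≠ 6} ≤
      #((univ : Finset (Fin 3 × Fin 3)).biUnion fun c =>
        univ.filter fun v : Fin 3 → ι × Bool => v c.1 = opp (v c.2)) := by
    refine card_le_card_of_injOn (fun w => ![w 0, w 2, w 4]) ?_ ?_
    · intro w hw
      rw [mem_coe, mem_filter] at hw
      obtain ⟨hw1, hw2⟩ := hw
      obtain ⟨a, b, hab⟩ := nonreduced (w := w) (by rw [Fintype.card_fin]; exact hw2)
      rw [mem_coe, mem_biUnion]
      refine ⟨(h6 a, h6 b), mem_univ _, ?_⟩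
      simp only [mem_filter, mem_univ, true_and]
      rw [W6b_eq hw1] at hab
      exact hab
    · intro w hw w' hw' h
      rw [mem_coe, mem_filter] at hw hw'
      rw [W6b_eq hw.1, W6b_eq hw'.1]
      simp only at h
      rw [h]
  refine h1.trans (card_biUnion_le.trans ?_)
  refine (sum_le_card_nsmul _ _ ((2 * Fintype.card ι) ^ 2) fun c _ => ?_).trans ?_
  · by_cases hc : c.1 = c.2
    · refine le_trans (le_of_eq ?_) (Nat.zero_le _)
      rw [card_eq_zero, filter_eq_empty_iff]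
      intro v _ hv
      rw [hc] at hv
      exact opp_ne _ hv
    · have h := card_det (univ.filter fun v : Fin 3 → ι × Bool => v c.1 = opp (v c.2)) {c.1} (by
        intro v hv v' hv' hvv
        simp only [mem_filter, mem_univ, true_and] at hv hv'
        have h2 : v c.2 = v' c.2 := hvv c.2 (by rw [mem_singleton]; exact fun h => hc h.symm)
        ext1 a
        by_cases ha : a = c.1
        · rw [ha, hv, hv', h2]
        · exact hvv a (by rw [mem_singleton]; exact ha))
      rw [card_letters, Fintype.card_fin, card_singleton] at h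
      exact h
  · rw [card_univ, Fintype.card_prod, Fintype.card_fin, smul_eq_mul]

theorem ell_W6b {w : Fin 6 → ι × Bool} (hw : w ∈ W6b ι) : ell (vs w) ≤ 3 := by
  rw [mem_W6b] at hw
  have h := ell_vs_le w {0, 2, 4} (by
    intro k
    fin_cases k
    · exact ⟨0, by decide, rfl⟩
    · exact ⟨0, by decide, hw.1⟩
    · exact ⟨2, by decide, rfl⟩
    · exact ⟨2, by decide, hw.2.1⟩
    · exact ⟨4, by decide, rfl⟩
    · exact ⟨4, by decide, hw.2.2⟩)
  exact h

theorem even_W6b {w : Fin 6 → ι × Bool} (hw : w ∈ W6b ι) (x : ι) : Even (vs w x) := by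
  rw [mem_W6b] at hw
  unfold vs
  rw [Finset.sum_apply, Fin.sum_univ_six, ← hw.1, ← hw.2.1, ← hw.2.2]
  refine ⟨dv (w 0) x + dv (w 2) x + dv (w 4) x, ?_⟩
  ring

/-- positions in order -/
def f10 : Fin 6 ⊕ Fin 4 ≃ Fin 10 where
  toFun := Sum.elim ![0, 1, 2, 3, 4, 5] ![6, 7, 8, 9]
  invFun := ![Sum.inl 0, Sum.inl 1, Sum.inl 2, Sum.inl 3, Sum.inl 4, Sum.inl 5, Sum.inr 0,
    Sum.inr 1, Sum.inr 2, Sum.inr 3]
  left_inv := by
    intro x
    revert x
    decide
  right_inv := by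
    intro x
    revert x
    decide

/-- positions in order -/
def f9 : Fin 6 ⊕ Fin 3 ≃ Fin 9 where
  toFun := Sum.elim ![0, 1, 2, 3, 4, 5] ![6, 7, 8]
  invFun := ![Sum.inl 0, Sum.inl 1, Sum.inl 2, Sum.inl 3, Sum.inl 4, Sum.inl 5, Sum.inr 0,
    Sum.inr 1, Sum.inr 2]
  left_inv := by
    intro x
    revert x
    decide
  right_inv := by
    intro x
    revert x
    decide

theorem z10b_eq (hSY : T_SY) (ev : (ι → ℤ) →+ G) :
    z10b ev = ∑ w ∈ W6b ι, #(cont ev w fun _ : Fin 4 → ι × Bool => True) := by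
  rw [← blk_sum (ev := ev) (fun w : Fin 6 → ι × Bool => w 0 = w 1 ∧ w 2 = w 3 ∧ w 4 = w 5)
      (fun _ : Fin 4 → ι × Bool => True) (W6b ι) (fun w => mem_W6b)]
  have h := (hSY ι G ev).1 (Fin 6 ⊕ Fin 4) (Fin 10) f10
    (fun z => z 0 = z 1 ∧ z 2 = z 3 ∧ z 4 = z 5)
  unfold z10b
  refine Eq.trans (by congr!) (h.symm.trans ?_)
  congr 1
  ext z
  simp only [mem_filter, and_true]
  exact Iff.rfl

theorem al_eq6 (hSY : T_SY) (ev : (ι → ℤ) →+ G) :
    al ev = ∑ w ∈ W6b ι, #(cont ev w fun _ : Fin 3 → ι × Bool => True) := by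
  rw [← blk_sum (ev := ev) (fun w : Fin 6 → ι × Bool => w 0 = w 1 ∧ w 2 = w 3 ∧ w 4 = w 5)
      (fun _ : Fin 3 → ι × Bool => True) (W6b ι) (fun w => mem_W6b)]
  have h := (hSY ι G ev).1 (Fin 6 ⊕ Fin 3) (Fin 9) f9
    (fun z => z 0 = z 1 ∧ z 2 = z 3 ∧ z 4 = z 5)
  unfold al
  refine Eq.trans (by congr!) (h.symm.trans ?_)
  congr 1
  ext z
  simp only [mem_filter, and_true]
  exact Iff.rfl

/-! ### The two lower bounds -/

/-- the first set of `T_NX` -/
def N1 (ev : (ι → ℤ) →+ G) : Finset (ι → ℤ) := {v ∈ Vn ι 10 | ev v = 0 ∧ ell v ≤ 6 ∧ ¬ X2 v}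

/-- the second set of `T_NX` -/
def N2 (ev : (ι → ℤ) →+ G) : Finset (ι → ℤ) := {v ∈ Vn ι 9 | ev v = 0 ∧ ell v ≤ 6 ∧ ¬ X1 v}

theorem mem_N1 {v : ι → ℤ} : v ∈ N1 ev ↔ nrm v = 10 ∧ ev v = 0 ∧ ell v ≤ 6 ∧ ¬ X2 v := by
  unfold N1
  rw [mem_filter, Pool.Agent.H2.GC.mem_Vn]

theorem mem_N2 {v : ι → ℤ} : v ∈ N2 ev ↔ nrm v = 9 ∧ ev v = 0 ∧ ell v ≤ 6 ∧ ¬ X1 v := by
  unfold N2
  rw [mem_filter, Pool.Agent.H2.GC.mem_Vn]

theorem le_cardW5 : (2 * Fintype.card ι) ^ 3 ≤ #(W5 ι) := by
  have h := card_pat (D := ι × Bool) (0 : Fin 5) 1 2 3 (by decide)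
  rw [card_letters, Fintype.card_fin] at h
  refine h.trans (le_of_eq (congrArg Finset.card ?_))
  ext w
  simp only [mem_W5, mem_filter, mem_univ, true_and]

theorem nonred5 : #{w ∈ W5 ι | nrm (vs w) ≠ 5} ≤ 25 * (2 * Fintype.card ι) ^ 2 := by
  have h := card_nonred (ι := ι) (0 : Fin 5) 1 2 3 (by decide)
  rw [card_letters, Fintype.card_fin] at h
  refine le_trans (card_le_card fun w hw => ?_) h
  rw [mem_filter, mem_W5] at hw
  simp only [mem_filter, mem_univ, true_and]
  exact hw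

theorem low9 (hSY : T_SY) (hW2 : T_W2) (hPC : PC 4 ev) :
    24 * (2 * Fintype.card ι) ^ 3 ≤ z9 ev + 6 * al ev +
      24 * (25 * (2 * Fintype.card ι) ^ 2 + 362880 * #(N2 ev)) := by
  obtain ⟨r, hr⟩ : ∃ r : (Fin 5 → ι × Bool) → (ι → ℤ), ∀ w, nrm (r w) ≤ 4 ∧
      ev (r w) = ev (vs w) := by
    choose r hr using fun w : Fin 5 → ι × Bool => (hPC (ev (vs w))).exists
    exact ⟨r, hr⟩
  have hL := Pool.Agent.H2.GC.l
  have hred : ∀ w : Fin 5 → ι × Bool, nrm (vs w) = 5 →
      nrm (r w) = 4 ∧ nrm (vs w - r w) = 9 := by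
    intro w hw
    have hne : vs w ≠ r w := by
      intro h
      have := (hr w).1
      rw [← h, hw] at this
      omega
    obtain ⟨h1, h2, h3⟩ := (hL ι G 4 ev hPC).2 (vs w) (r w) hne (hr w).2.symm
    have h4 := (hr w).1
    rw [hw] at h2
    constructor <;> omega
  set good := {w ∈ W5 ι | nrm (vs w) = 5 ∧ 3 ≤ ell (r w)} with hgood
  set bad := {w ∈ W5 ι | nrm (vs w) = 5 ∧ ell (r w) ≤ 2} with hbad
  have hcov : #(W5 ι) ≤ #(good) + (#{w ∈ W5 ι | nrm (vs w) ≠ 5} + #(bad)) := by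
    have h1 : W5 ι ⊆ good ∪ ({w ∈ W5 ι | nrm (vs w) ≠ 5} ∪ bad) := by
      intro w hw
      simp only [hgood, hbad, mem_union, mem_filter]
      by_cases a1 : nrm (vs w) = 5
      · by_cases a2 : 3 ≤ ell (r w)
        · exact Or.inl ⟨hw, a1, a2⟩
        · exact Or.inr (Or.inr ⟨hw, a1, by omega⟩)
      · exact Or.inr (Or.inl ⟨hw, a1⟩)
    exact (card_le_card h1).trans ((card_union_le _ _).trans
      (Nat.add_le_add_left (card_union_le _ _) _))
  have hgood24 : 24 * #(good) ≤ z9 ev + 6 * al ev := by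
    rw [z9_eq hSY, al_eq hSY, mul_sum, ← sum_add_distrib]
    have h1 : #(good) • 24 ≤ ∑ w ∈ good, (#(cont ev w fun _ : Fin 4 → ι × Bool => True) +
        6 * #(cont ev w fun u : Fin 4 → ι × Bool => u 0 = u 1)) := by
      refine card_nsmul_le_sum _ _ _ fun w hw => ?_
      simp only [hgood, mem_filter] at hw
      obtain ⟨-, hw5, hl⟩ := hw
      obtain ⟨hn4, hn9⟩ := hred w hw5
      have hnr : nrm (-(r w)) = Fintype.card (Fin 4) := by
        rw [nrm_neg, hn4, Fintype.card_fin]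
      have c1 := wds_sub_cont (κ' := Fin 4) (hr w).2
        (by rw [hn9, Fintype.card_fin, Fintype.card_fin]) (fun _ : Fin 4 → ι × Bool => True)
      have c2 := wds_sub_cont (κ' := Fin 4) (hr w).2
        (by rw [hn9, Fintype.card_fin, Fintype.card_fin]) (fun u : Fin 4 → ι × Bool => u 0 = u 1)
      have hle4 : ell (r w) ≤ 4 := by
        have := Pool.Agent.H59.GC.ell_le_nrm (r w)
        omega
      by_cases h4 : ell (r w) = 4
      · have a1 := ((Pool.Agent.H59.GC.w ι (Fin 4)).2 _ hnr).2.2.1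
          (by rw [Pool.Agent.H59.GC.ell_neg, h4, Fintype.card_fin])
        rw [Fintype.card_fin] at a1
        have b1 : #(wds (-(r w)) fun _ : Fin 4 → ι × Bool => True) = 24 := by
          refine Eq.trans ?_ (a1.trans (by decide))
          unfold wds
          simp only [and_true]
        omega
      · have h3 : ell (r w) = 3 := by omega
        have a1 := (hW2 ι (Fin 4) _ hnr).1
          (by rw [Pool.Agent.H59.GC.ell_neg, h3, Fintype.card_fin])
        have a2 := ((Pool.Agent.H59.GC.w ι (Fin 4)).2 _ hnr).2.2.2.1 0 1 (by decide)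
          (by rw [Pool.Agent.H59.GC.ell_neg, h3, Fintype.card_fin])
        rw [Fintype.card_fin] at a1 a2
        have b1 : 2 * #(wds (-(r w)) fun _ : Fin 4 → ι × Bool => True) = 24 := by
          refine Eq.trans ?_ (a1.trans (by decide))
          unfold wds
          simp only [and_true]
        have b2 : #(wds (-(r w)) fun u : Fin 4 → ι × Bool => u 0 = u 1) = 2 := by
          refine Eq.trans ?_ (a2.trans (by decide))
          unfold wds
          congr!
        omega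
    rw [smul_eq_mul, mul_comm] at h1
    refine h1.trans (sum_le_sum_of_subset (filter_subset _ _))
  have hbad9 : #(bad) ≤ 362880 * #(N2 ev) := by
    have h1 := ext_bound (ev := ev) (β := Fin 4) bad (fun z => vs z ∈ N2 ev) (by
      intro w hw
      simp only [hbad, mem_filter] at hw
      obtain ⟨hw5, hn5, hl⟩ := hw
      obtain ⟨hn4, hn9⟩ := hred w hn5
      obtain ⟨u, hu⟩ := ((Pool.Agent.H59.GC.w ι (Fin 4)).2 (-(r w))
        (by rw [nrm_neg, hn4, Fintype.card_fin])).1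
      refine ⟨u, elim_mem_of hu (hr w).2 (by rw [hn9, Fintype.card_fin, Fintype.card_fin]), ?_⟩
      rw [Pool.Agent.H59.GC.vs_sum, hu, ← sub_eq_add_neg, mem_N2]
      have hl1 : ell (vs w) ≤ 3 := by
        rw [mem_W5] at hw5
        exact ell_double hw5.1 hw5.2
      have hl2 := ell_sub_le (vs w) (r w)
      refine ⟨hn9, by rw [map_sub, (hr w).2, sub_self], by omega, ?_⟩
      rintro ⟨h6, -⟩
      omega)
    have h2 := card_vs_mem (ev := ev) (κ := Fin 5 ⊕ Fin 4) (N2 ev)
    rw [Fintype.card_sum, Fintype.card_fin, Fintype.card_fin,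
      show (5 + 4 : ℕ)! = 362880 by decide] at h2
    exact h1.trans (le_of_eq_of_le (by congr!) h2)
  have h1 := le_cardW5 (ι := ι)
  have h2 := nonred5 (ι := ι)
  generalize (2 * Fintype.card ι) ^ 3 = A at *
  generalize (2 * Fintype.card ι) ^ 2 = B at *
  omega

theorem low10 (hSY : T_SY) (hPC : PC 4 ev) :
    24 * (2 * Fintype.card ι) ^ 3 ≤ z10b ev + 4 * al ev +
      24 * (9 * (2 * Fintype.card ι) ^ 2 + 362880 * #(N2 ev) + 3628800 * #(N1 ev)) := by
  obtain ⟨r, hr⟩ : ∃ r : (Fin 6 → ι × Bool) → (ι → ℤ), ∀ w, nrm (r w) ≤ 4 ∧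
      ev (r w) = ev (vs w) := by
    choose r hr using fun w : Fin 6 → ι × Bool => (hPC (ev (vs w))).exists
    exact ⟨r, hr⟩
  have hL := Pool.Agent.H2.GC.l
  have hred : ∀ w : Fin 6 → ι × Bool, nrm (vs w) = 6 →
      (nrm (r w) = 4 ∧ nrm (vs w - r w) = 10) ∨ (nrm (r w) = 3 ∧ nrm (vs w - r w) = 9) := by
    intro w hw
    have hne : vs w ≠ r w := by
      intro h
      have := (hr w).1
      rw [← h, hw] at this
      omega
    obtain ⟨h1, h2, h3⟩ := (hL ι G 4 ev hPC).2 (vs w) (r w) hne (hr w).2.symm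
    have h4 := (hr w).1
    rw [hw] at h2 h3
    obtain ⟨t, ht⟩ := h3
    omega
  set A := {w ∈ W6b ι | nrm (vs w) = 6 ∧ nrm (r w) = 4 ∧ ell (r w) = 4} with hA
  set B := {w ∈ W6b ι | nrm (vs w) = 6 ∧ nrm (r w) = 3 ∧ ell (r w) = 3} with hB
  set C := {w ∈ W6b ι | nrm (vs w) = 6 ∧ nrm (r w) = 3 ∧ ell (r w) ≠ 3} with hC
  set D := {w ∈ W6b ι | nrm (vs w) = 6 ∧ nrm (r w) = 4 ∧ ell (r w) ≠ 4} with hD
  have hcov : #(W6b ι) ≤ #A + (#B + (#{w ∈ W6b ι | nrm (vs w) ≠ 6} + (#C + #D))) := by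
    have h1 : W6b ι ⊆ A ∪ (B ∪ ({w ∈ W6b ι | nrm (vs w) ≠ 6} ∪ (C ∪ D))) := by
      intro w hw
      simp only [hA, hB, hC, hD, mem_union, mem_filter]
      by_cases a1 : nrm (vs w) = 6
      · rcases hred w a1 with ⟨a2, -⟩ | ⟨a2, -⟩
        · by_cases a3 : ell (r w) = 4
          · exact Or.inl ⟨hw, a1, a2, a3⟩
          · exact Or.inr (Or.inr (Or.inr (Or.inr ⟨hw, a1, a2, a3⟩)))
        · by_cases a3 : ell (r w) = 3
          · exact Or.inr (Or.inl ⟨hw, a1, a2, a3⟩)
          · exact Or.inr (Or.inr (Or.inr (Or.inl ⟨hw, a1, a2, a3⟩)))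
      · exact Or.inr (Or.inr (Or.inl ⟨hw, a1⟩))
    refine (card_le_card h1).trans ((card_union_le _ _).trans (Nat.add_le_add_left ?_ _))
    refine (card_union_le _ _).trans (Nat.add_le_add_left ?_ _)
    refine (card_union_le _ _).trans (Nat.add_le_add_left ?_ _)
    exact card_union_le _ _
  have hA24 : 24 * #A ≤ z10b ev := by
    rw [z10b_eq hSY]
    have h1 : #A • 24 ≤ ∑ w ∈ A, #(cont ev w fun _ : Fin 4 → ι × Bool => True) := by
      refine card_nsmul_le_sum _ _ _ fun w hw => ?_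
      simp only [hA, mem_filter] at hw
      obtain ⟨-, hw6, hn4, hl⟩ := hw
      have hn10 : nrm (vs w - r w) = 10 := by
        rcases hred w hw6 with ⟨-, h⟩ | ⟨h, -⟩
        · exact h
        · omega
      have hnr : nrm (-(r w)) = Fintype.card (Fin 4) := by
        rw [nrm_neg, hn4, Fintype.card_fin]
      have c1 := wds_sub_cont (κ' := Fin 4) (hr w).2
        (by rw [hn10, Fintype.card_fin, Fintype.card_fin]) (fun _ : Fin 4 → ι × Bool => True)
      have a1 := ((Pool.Agent.H59.GC.w ι (Fin 4)).2 _ hnr).2.2.1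
          (by rw [Pool.Agent.H59.GC.ell_neg, hl, Fintype.card_fin])
      rw [Fintype.card_fin] at a1
      have b1 : #(wds (-(r w)) fun _ : Fin 4 → ι × Bool => True) = 24 := by
        refine Eq.trans ?_ (a1.trans (by decide))
        unfold wds
        simp only [and_true]
      omega
    rw [smul_eq_mul, mul_comm] at h1
    exact h1.trans (sum_le_sum_of_subset (filter_subset _ _))
  have hB6 : 6 * #B ≤ al ev := by
    rw [al_eq6 hSY]
    have h1 : #B • 6 ≤ ∑ w ∈ B, #(cont ev w fun _ : Fin 3 → ι × Bool => True) := by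
      refine card_nsmul_le_sum _ _ _ fun w hw => ?_
      simp only [hB, mem_filter] at hw
      obtain ⟨-, hw6, hn3, hl⟩ := hw
      have hn9 : nrm (vs w - r w) = 9 := by
        rcases hred w hw6 with ⟨h, -⟩ | ⟨-, h⟩
        · omega
        · exact h
      have hnr : nrm (-(r w)) = Fintype.card (Fin 3) := by
        rw [nrm_neg, hn3, Fintype.card_fin]
      have c1 := wds_sub_cont (κ' := Fin 3) (hr w).2
        (by rw [hn9, Fintype.card_fin, Fintype.card_fin]) (fun _ : Fin 3 → ι × Bool => True)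
      have a1 := ((Pool.Agent.H59.GC.w ι (Fin 3)).2 _ hnr).2.2.1
          (by rw [Pool.Agent.H59.GC.ell_neg, hl, Fintype.card_fin])
      rw [Fintype.card_fin] at a1
      have b1 : #(wds (-(r w)) fun _ : Fin 3 → ι × Bool => True) = 6 := by
        refine Eq.trans ?_ (a1.trans (by decide))
        unfold wds
        simp only [and_true]
      omega
    rw [smul_eq_mul, mul_comm] at h1
    exact h1.trans (sum_le_sum_of_subset (filter_subset _ _))
  have hC9 : #C ≤ 362880 * #(N2 ev) := by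
    have h1 := ext_bound (ev := ev) (β := Fin 3) C (fun z => vs z ∈ N2 ev) (by
      intro w hw
      simp only [hC, mem_filter] at hw
      obtain ⟨hw6, hn6, hn3, hl⟩ := hw
      have hn9 : nrm (vs w - r w) = 9 := by
        rcases hred w hn6 with ⟨h, -⟩ | ⟨-, h⟩
        · omega
        · exact h
      obtain ⟨u, hu⟩ := ((Pool.Agent.H59.GC.w ι (Fin 3)).2 (-(r w))
        (by rw [nrm_neg, hn3, Fintype.card_fin])).1
      refine ⟨u, elim_mem_of hu (hr w).2 (by rw [hn9, Fintype.card_fin, Fintype.card_fin]), ?_⟩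
      rw [Pool.Agent.H59.GC.vs_sum, hu, ← sub_eq_add_neg, mem_N2]
      have hl1 := ell_W6b hw6
      have hl2 := ell_sub_le (vs w) (r w)
      have hl3 := Pool.Agent.H59.GC.ell_le_nrm (r w)
      refine ⟨hn9, by rw [map_sub, (hr w).2, sub_self], by omega, ?_⟩
      rintro ⟨h6, -⟩
      omega)
    have h2 := card_vs_mem (ev := ev) (κ := Fin 6 ⊕ Fin 3) (N2 ev)
    rw [Fintype.card_sum, Fintype.card_fin, Fintype.card_fin,
      show (6 + 3 : ℕ)! = 362880 by decide] at h2
    exact h1.trans (le_of_eq_of_le (by congr!) h2)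
  have hD10 : #D ≤ 3628800 * #(N1 ev) := by
    have h1 := ext_bound (ev := ev) (β := Fin 4) D (fun z => vs z ∈ N1 ev) (by
      intro w hw
      simp only [hD, mem_filter] at hw
      obtain ⟨hw6, hn6, hn4, hl⟩ := hw
      have hn10 : nrm (vs w - r w) = 10 := by
        rcases hred w hn6 with ⟨-, h⟩ | ⟨h, -⟩
        · exact h
        · omega
      obtain ⟨u, hu⟩ := ((Pool.Agent.H59.GC.w ι (Fin 4)).2 (-(r w))
        (by rw [nrm_neg, hn4, Fintype.card_fin])).1
      refine ⟨u, elim_mem_of hu (hr w).2 (by rw [hn10, Fintype.card_fin, Fintype.card_fin]), ?_⟩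
      rw [Pool.Agent.H59.GC.vs_sum, hu, ← sub_eq_add_neg, mem_N1]
      have hl1 := ell_W6b hw6
      have hl2 := ell_sub_le (vs w) (r w)
      have hl3 := Pool.Agent.H59.GC.ell_le_nrm (r w)
      refine ⟨hn10, by rw [map_sub, (hr w).2, sub_self], by omega, ?_⟩
      rintro ⟨h6, x, hx, -⟩
      have hev := even_W6b hw6 x
      rw [Pi.sub_apply] at hx
      have hr0 : r w x ≠ 0 := by
        intro h
        rw [h, sub_zero] at hx
        obtain ⟨t, ht⟩ := hev
        omega
      by_cases hc : vs w x = 0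
      · rw [hc, zero_sub, Int.natAbs_neg] at hx
        have := natAbs_le_of (r w) x hr0
        omega
      · have := ell_sub_lt (vs w) (r w) x hc hr0
        omega)
    have h2 := card_vs_mem (ev := ev) (κ := Fin 6 ⊕ Fin 4) (N1 ev)
    rw [Fintype.card_sum, Fintype.card_fin, Fintype.card_fin,
      show (6 + 4 : ℕ)! = 3628800 by decide] at h2
    exact h1.trans (le_of_eq_of_le (by congr!) h2)
  have h1 := le_cardW6b (ι := ι)
  have h2 := nonred6 (ι := ι)
  generalize (2 * Fintype.card ι) ^ 3 = P at *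
  generalize (2 * Fintype.card ι) ^ 2 = Q at *
  omega

theorem l4 (hSY : T_SY) (hW2 : T_W2) (hNX : T_NX) : T_L4 := by
  obtain ⟨K, hK⟩ := hNX
  refine ⟨24 * (100 + 362880 * |K| + 3628800 * |K|), ?_⟩
  intro ι _ G _ _ ev hPC hodd hm
  obtain ⟨h1, h2⟩ := hK ι G ev hPC hodd hm
  have e1 : (#(N1 ev) : ℝ) ≤ |K| * (Fintype.card ι : ℝ) ^ 2 := by
    refine h1.trans ?_
    gcongr
    exact le_abs_self K
  have e2 : (#(N2 ev) : ℝ) ≤ |K| * (Fintype.card ι : ℝ) ^ 2 := by
    refine h2.trans ?_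
    gcongr
    exact le_abs_self K
  have hK0 : 0 ≤ |K| * (Fintype.card ι : ℝ) ^ 2 := by positivity
  have l1 : (24 * (2 * Fintype.card ι : ℝ) ^ 3) ≤ z9 ev + 6 * al ev +
      24 * (25 * (2 * Fintype.card ι : ℝ) ^ 2 + 362880 * #(N2 ev)) := by
    exact_mod_cast low9 hSY hW2 hPC
  have l2 : (24 * (2 * Fintype.card ι : ℝ) ^ 3) ≤ z10b ev + 4 * al ev +
      24 * (9 * (2 * Fintype.card ι : ℝ) ^ 2 + 362880 * #(N2 ev) + 3628800 * #(N1 ev)) := by
    exact_mod_cast low10 hSY hPC
  have e3 : (0 : ℝ) ≤ (Fintype.card ι : ℝ) ^ 2 := by positivity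
  constructor
  · nlinarith
  · nlinarith

end

end Pool.Agent.H80.GC4
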