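import Pool.Agent.H23.GC.Targets

/-! Module S of gc_modules (MP_684e05_nt): pairs with one defect each. -/

set_option autoImplicit false

open Finset Pool.Agent.H23.GW Pool.Agent.H23.GC
open scoped Classical Nat

namespace Pool.Agent.H80.GC

noncomputable section

variable {ι : Type} [Fintype ι]

theorem nrm_add_le (a b : ι → ℤ) : nrm (a + b) ≤ nrm a + nrm b := by
  unfold nrm
  rw [← Finset.sum_add_distrib]
  exact Finset.sum_le_sum fun i _ => Int.natAbs_add_le _ _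

theorem nrm_neg (a : ι → ℤ) : nrm (-a) = nrm a := by
  unfold nrm
  exact Finset.sum_congr rfl fun i _ => Int.natAbs_neg _

theorem ell_neg (a : ι → ℤ) : ell (-a) = ell a := by
  unfold ell
  congr 1
  ext i
  simp

theorem nrm_zero : nrm (0 : ι → ℤ) = 0 := by
  unfold nrm
  simp

theorem ell_le_nrm (a : ι → ℤ) : ell a ≤ nrm a := by
  unfold ell nrm
  rw [Finset.card_eq_sum_ones, Finset.sum_filter]
  refine Finset.sum_le_sum fun i _ => ?_
  split_ifs with h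
  · exact Int.natAbs_pos.2 h
  · exact Nat.zero_le _

theorem vs_sum {κ κ' : Type} [Fintype κ] [Fintype κ'] (z : κ ⊕ κ' → ι × Bool) :
    vs z = vs (z ∘ Sum.inl) + vs (z ∘ Sum.inr) := by
  unfold vs
  rw [Fintype.sum_sum_type]
  rfl

/-- words of length `s + 1` with `w 0 = w 1` -/
def aw (s : ℕ) (v : ι → ℤ) : Finset (Fin (s + 3) → ι × Bool) := {w | vs w = v ∧ w 0 = w 1}

/-- the pairs off the diagonal with the same image -/
def TT {G : Type} [AddCommGroup G] (s : ℕ) (ev : (ι → ℤ) →+ G) : Finset ((ι → ℤ) × (ι → ℤ)) :=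
  {q ∈ Vn ι (s + 3) ×ˢ Vn ι (s + 3) | q.1 ≠ q.2 ∧ ev q.1 = ev q.2}

/-- the reduced words with the two coincidences -/
def NN {G : Type} [AddCommGroup G] (s : ℕ) (ev : (ι → ℤ) →+ G) :
    Finset (Fin (s + 3) ⊕ Fin (s + 3) → ι × Bool) :=
  {z ∈ Zr ev (Fin (s + 3) ⊕ Fin (s + 3)) | z (Sum.inl 0) = z (Sum.inl 1) ∧
    z (Sum.inr 0) = z (Sum.inr 1)}

/-- the count of words is a sum over pairs -/
theorem card_NN {G : Type} [AddCommGroup G] (hV : T_V) (hL : T_L) (hW : T_W) (s : ℕ)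
    (ev : (ι → ℤ) →+ G) (hP : PC (s + 2) ev) :
    #(NN s ev) = ∑ q ∈ TT s ev, #(aw s q.1) * #(aw s (-q.2)) := by
  have hmap : ∀ z ∈ NN s ev, (vs (z ∘ Sum.inl), -vs (z ∘ Sum.inr)) ∈ TT s ev := by
    intro z hz
    simp only [NN, Zr, mem_filter, mem_univ, true_and] at hz
    obtain ⟨⟨h1, h2⟩, -⟩ := hz
    have hcard : Fintype.card (Fin (s + 3) ⊕ Fin (s + 3)) = (s + 3) + (s + 3) := by simp
    rw [hcard, vs_sum] at h1
    rw [vs_sum, map_add] at h2
    have b1 := (hW ι (Fin (s + 3))).1 (z ∘ Sum.inl)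
    have b2 := (hW ι (Fin (s + 3))).1 (z ∘ Sum.inr)
    rw [Fintype.card_fin] at b1 b2
    have b3 := nrm_add_le (vs (z ∘ Sum.inl)) (vs (z ∘ Sum.inr))
    simp only [TT, mem_filter, mem_product]
    refine ⟨⟨(hV ι _ _).2 (by omega), (hV ι _ _).2 (by rw [nrm_neg]; omega)⟩, ?_, ?_⟩
    · intro h
      rw [h, neg_add_cancel, nrm_zero] at h1
      omega
    · rw [map_neg]
      exact eq_neg_of_add_eq_zero_left h2
  rw [Finset.card_eq_sum_card_fiberwise hmap]
  refine Finset.sum_congr rfl fun q hq => ?_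
  simp only [TT, mem_filter, mem_product] at hq
  obtain ⟨⟨hq1, hq2⟩, hne, hev⟩ := hq
  rw [hV] at hq1 hq2
  rw [← Finset.card_product]
  refine Finset.card_bij' (fun z _ => (z ∘ Sum.inl, z ∘ Sum.inr)) (fun p _ => Sum.elim p.1 p.2)
    ?_ ?_ ?_ ?_
  · intro z hz
    simp only [NN, Zr, mem_filter, mem_univ, true_and, aw, mem_product] at hz ⊢
    obtain ⟨⟨-, h1, h2⟩, h3⟩ := hz
    have e1 := congrArg Prod.fst h3
    have e2 := congrArg Prod.snd h3
    simp only at e1 e2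
    exact ⟨⟨e1, h1⟩, by rw [← e2, neg_neg], h2⟩
  · intro p hp
    simp only [NN, Zr, mem_filter, mem_univ, true_and, aw, mem_product] at hp ⊢
    obtain ⟨⟨h1, h2⟩, h3, h4⟩ := hp
    have hv : vs (Sum.elim p.1 p.2) = q.1 - q.2 := by
      rw [vs_sum, Sum.elim_comp_inl, Sum.elim_comp_inr, h1, h3, sub_eq_add_neg]
    have hl := (hL ι G (s + 2) ev hP).2 q.1 q.2 hne hev
    refine ⟨⟨⟨?_, ?_⟩, h2, h4⟩, ?_⟩
    · rw [hv]
      obtain ⟨l1, l2, l3⟩ := hl
      rw [hq1, hq2] at l2 l3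
      have hcard : Fintype.card (Fin (s + 3) ⊕ Fin (s + 3)) = (s + 3) + (s + 3) := by simp
      rw [hcard]
      rcases l3 with ⟨r, hr⟩
      omega
    · rw [hv, map_sub, hev, sub_self]
    · rw [Sum.elim_comp_inl, Sum.elim_comp_inr, h1, h3, neg_neg]
  · intro z _
    simp
  · intro p _
    simp

/-- pairs with one defect each, off the diagonal -/
def PP {G : Type} [AddCommGroup G] (s : ℕ) (ev : (ι → ℤ) →+ G) : Finset ((ι → ℤ) × (ι → ℤ)) :=
  {q ∈ TT s ev | ell q.1 = s + 2 ∧ ell q.2 = s + 2}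

/-- the exceptional pairs -/
def EE {G : Type} [AddCommGroup G] (s : ℕ) (ev : (ι → ℤ) →+ G) : Finset ((ι → ℤ) × (ι → ℤ)) :=
  {q ∈ Vn ι (s + 3) ×ˢ Vn ι (s + 3) | ev q.1 = ev q.2 ∧ ell q.1 ≤ s + 2 ∧ ell q.2 < s + 2}

theorem aw_le (hW : T_W) (s : ℕ) (v : ι → ℤ) (hv : nrm v = s + 3) : #(aw s v) ≤ (s + 3)! := by
  have h := ((hW ι (Fin (s + 3))).2 v (by rw [hv, Fintype.card_fin])).2.1
  rw [Fintype.card_fin] at h
  refine le_trans (Finset.card_le_card ?_) h
  intro w hw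
  simp only [aw, mem_filter, mem_univ, true_and] at hw ⊢
  exact hw.1

theorem aw_eq (hW : T_W) (s : ℕ) (v : ι → ℤ) (hv : nrm v = s + 3) (hl : ell v = s + 2) :
    #(aw s v) = (s + 1)! := by
  have h := ((hW ι (Fin (s + 3))).2 v (by rw [hv, Fintype.card_fin])).2.2.2.1 0 1
    (by simp) (by rw [hl, Fintype.card_fin])
  rw [Fintype.card_fin, show s + 3 - 2 = s + 1 from rfl] at h
  rw [← h]
  refine congrArg Finset.card ?_
  ext w
  simp only [aw, mem_filter, mem_univ, true_and]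

theorem aw_zero (hW : T_W) (s : ℕ) (v : ι → ℤ) (hv : nrm v = s + 3) (hl : ell v = s + 3) :
    #(aw s v) = 0 := by
  have h := ((hW ι (Fin (s + 3))).2 v (by rw [hv, Fintype.card_fin])).2.2.2.2.1 0 1
    (by simp) (by rw [hl, Fintype.card_fin])
  rw [Finset.card_eq_zero, Finset.eq_empty_iff_forall_notMem]
  intro w hw
  simp only [aw, mem_filter, mem_univ, true_and] at hw
  exact h w hw.1 hw.2

theorem bounds_NN {G : Type} [AddCommGroup G] (hV : T_V) (hL : T_L) (hW : T_W) (s : ℕ)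
    (ev : (ι → ℤ) →+ G) (hP : PC (s + 2) ev) :
    ((s + 1)!) ^ 2 * #(PP s ev) ≤ #(NN s ev) ∧
    #(NN s ev) ≤ ((s + 1)!) ^ 2 * #(PP s ev) + ((s + 3)!) ^ 2 * (2 * #(EE s ev)) := by
  rw [card_NN hV hL hW s ev hP]
  have hpp : ∑ q ∈ PP s ev, #(aw s q.1) * #(aw s (-q.2)) = ((s + 1)!) ^ 2 * #(PP s ev) := by
    have : ∀ q ∈ PP s ev, #(aw s q.1) * #(aw s (-q.2)) = ((s + 1)!) ^ 2 := by
      intro q hq
      simp only [PP, TT, mem_filter, mem_product] at hq
      obtain ⟨⟨⟨h1, h2⟩, h3, h4⟩, h5, h6⟩ := hq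
      rw [hV] at h1 h2
      rw [aw_eq hW s q.1 h1 h5, aw_eq hW s (-q.2) (by rw [nrm_neg]; exact h2)
        (by rw [ell_neg]; exact h6), sq]
    rw [Finset.sum_congr rfl this, Finset.sum_const, smul_eq_mul, mul_comm]
  have hsub : PP s ev ⊆ TT s ev := Finset.filter_subset _ _
  constructor
  · rw [← hpp]
    exact Finset.sum_le_sum_of_subset hsub
  · rw [← Finset.sum_sdiff hsub, hpp, add_comm]
    refine Nat.add_le_add_left ?_ _
    have h1 : ∀ q ∈ TT s ev \ PP s ev, #(aw s q.1) * #(aw s (-q.2)) ≤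
        (if q ∈ EE s ev ∨ (q.2, q.1) ∈ EE s ev then ((s + 3)!) ^ 2 else 0) := by
      intro q hq
      rw [mem_sdiff] at hq
      obtain ⟨hq1, hq2⟩ := hq
      have hq0 := hq1
      simp only [TT, mem_filter, mem_product] at hq1
      obtain ⟨⟨h1, h2⟩, h3, h4⟩ := hq1
      have h1' := (hV _ _ _).1 h1
      have h2' := (hV _ _ _).1 h2
      have l1 := ell_le_nrm q.1
      have l2 := ell_le_nrm q.2
      rw [h1'] at l1
      rw [h2'] at l2
      by_cases c1 : ell q.1 = s + 3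
      · rw [aw_zero hW s q.1 h1' c1, zero_mul]
        exact Nat.zero_le _
      by_cases c2 : ell q.2 = s + 3
      · rw [aw_zero hW s (-q.2) (by rw [nrm_neg]; exact h2') (by rw [ell_neg]; exact c2), mul_zero]
        exact Nat.zero_le _
      have hcase : q ∈ EE s ev ∨ (q.2, q.1) ∈ EE s ev := by
        by_cases c3 : ell q.2 = s + 2
        · right
          have c4 : ell q.1 ≠ s + 2 := by
            intro c4
            apply hq2
            simp only [PP, mem_filter]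
            exact ⟨hq0, c4, c3⟩
          simp only [EE, mem_filter, mem_product]
          exact ⟨⟨h2, h1⟩, h4.symm, by omega, by omega⟩
        · left
          simp only [EE, mem_filter, mem_product]
          exact ⟨⟨h1, h2⟩, h4, by omega, by omega⟩
      rw [if_pos hcase, sq]
      exact Nat.mul_le_mul (aw_le hW s q.1 h1') (aw_le hW s (-q.2) (by rw [nrm_neg]; exact h2'))
    refine (Finset.sum_le_sum h1).trans ?_
    rw [← Finset.sum_filter, Finset.sum_const, smul_eq_mul, mul_comm]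
    refine Nat.mul_le_mul_left _ ?_
    rw [two_mul]
    have h2 : {q ∈ TT s ev \ PP s ev | q ∈ EE s ev ∨ (q.2, q.1) ∈ EE s ev} ⊆
        EE s ev ∪ (EE s ev).image Prod.swap := by
      intro q hq
      rw [mem_filter] at hq
      rw [mem_union, mem_image]
      rcases hq.2 with h | h
      · exact Or.inl h
      · exact Or.inr ⟨_, h, rfl⟩
    refine (Finset.card_le_card h2).trans ((Finset.card_union_le _ _).trans ?_)
    exact Nat.add_le_add_left Finset.card_image_le _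

/-- Module S. -/
theorem modS (hV : T_V) (hL : T_L) (hW : T_W) (hZ : T_Z) (hX : T_X) (hC : T_C) : T_S := by
  intro s hs
  obtain ⟨t, rfl⟩ : ∃ t, s = t + 2 := ⟨s - 2, by omega⟩
  obtain ⟨CZ, hCZ⟩ := hZ (t + 2) hs
  obtain ⟨CX, hCX⟩ := hX (t + 2) hs
  obtain ⟨CC, hCC⟩ := hC.2.1 (t + 3) (by omega)
  refine ⟨|CZ| + ((t + 3)! : ℝ) ^ 2 * (2 * |CX|) + |CC|, ?_⟩
  intro ι _ G _ _ ev hP hodd hι
  set m : ℝ := (Fintype.card ι : ℝ) with hm
  have hm0 : 0 ≤ m := Nat.cast_nonneg _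
  have hN := ((hCZ ι G ev hP hodd hι (Fin (t + 3) ⊕ Fin (t + 3))).1 (by simp; ring)
    (Sum.inl 0) (Sum.inl 1) (Sum.inr 0) (Sum.inr 1) (Sum.inl ⟨2, by omega⟩)
    (Sum.inl ⟨3, by omega⟩) (by simp [Fin.ext_iff])).1
  have hE := (hCX ι G ev hP hodd hι).2
  have hD := hCC ι hι
  have hb := bounds_NN hV hL hW t ev hP
  have e1 : t + 2 - 1 = t + 1 := rfl
  have e2 : t + 3 - 2 = t + 1 := rfl
  have e3 : t + 3 - 1 = t + 2 := rfl
  rw [e1] at hN hE ⊢
  rw [e2, e3] at hD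
  have hNN : #{z ∈ Zr ev (Fin (t + 3) ⊕ Fin (t + 3)) | z (Sum.inl 0) = z (Sum.inl 1) ∧
    z (Sum.inr 0) = z (Sum.inr 1)} = #(NN t ev) := rfl
  have hEE : #{q ∈ Vn ι (t + 2 + 1) ×ˢ Vn ι (t + 2 + 1) | ev q.1 = ev q.2 ∧ ell q.1 ≤ t + 2 ∧
    ell q.2 < t + 2} = #(EE t ev) := rfl
  rw [hNN] at hN
  rw [hEE] at hE
  have hsplit : #{q ∈ Vn ι (t + 2 + 1) ×ˢ Vn ι (t + 2 + 1) | ev q.1 = ev q.2 ∧ ell q.1 = t + 2 ∧
    ell q.2 = t + 2} = #(PP t ev) + #{c ∈ Vn ι (t + 3) | ell c = t + 2} := by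
    rw [← Finset.card_filter_add_card_filter_not (s := {q ∈ Vn ι (t + 2 + 1) ×ˢ Vn ι (t + 2 + 1) |
      ev q.1 = ev q.2 ∧ ell q.1 = t + 2 ∧ ell q.2 = t + 2}) (fun q => q.1 ≠ q.2)]
    congr 1
    · congr 1
      ext q
      simp only [PP, TT, mem_filter, mem_product]
      tauto
    · refine Finset.card_bij' (fun q _ => q.1) (fun c _ => (c, c)) ?_ ?_ ?_ ?_
      · intro q hq
        simp only [mem_filter, mem_product, not_not] at hq ⊢
        exact ⟨hq.1.1.1, hq.1.2.2.1⟩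
      · intro c hc
        simp only [mem_filter, mem_product, not_not] at hc ⊢
        exact ⟨⟨⟨hc.1, hc.1⟩, trivial, hc.2, hc.2⟩, trivial⟩
      · intro q hq
        simp only [mem_filter, mem_product, not_not] at hq
        exact Prod.ext rfl hq.2
      · intro c _
        rfl
  rw [hsplit]
  push_cast
  have hb1' : (((t + 1)! ^ 2 * #(PP t ev) : ℕ) : ℝ) ≤ ((#(NN t ev) : ℕ) : ℝ) := Nat.cast_le.2 hb.1
  have hb2' : ((#(NN t ev) : ℕ) : ℝ) ≤ (((t + 1)! ^ 2 * #(PP t ev) +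
    (t + 3)! ^ 2 * (2 * #(EE t ev)) : ℕ) : ℝ) := Nat.cast_le.2 hb.2
  push_cast at hb1' hb2'
  set P : ℝ := (#(PP t ev) : ℝ)
  set N : ℝ := (#(NN t ev) : ℝ)
  set E : ℝ := (#(EE t ev) : ℝ)
  set Dg : ℝ := (#{c ∈ Vn ι (t + 3) | ell c = t + 2} : ℝ)
  have hb1 : ((t + 1)! : ℝ) ^ 2 * P ≤ N := hb1'
  have hb2 : N ≤ ((t + 1)! : ℝ) ^ 2 * P + ((t + 3)! : ℝ) ^ 2 * (2 * E) := hb2'
  set F : ℝ := ((t + 1)! : ℝ) with hF
  have hF1 : 1 ≤ F := by
    rw [hF]
    exact_mod_cast Nat.factorial_pos (t + 1)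
  have hfac : ((t + 2)! : ℝ) = (t + 2) * F := by
    rw [hF, Nat.factorial_succ (t + 1)]
    push_cast
    ring
  rw [hfac] at hN
  set K : ℝ := ((t + 3)! : ℝ) ^ 2
  have hK : 0 ≤ K := sq_nonneg _
  set M : ℝ := m ^ (t + 1) with hM
  have hM0 : 0 ≤ M := pow_nonneg hm0 _
  set Y : ℝ := (2 * m) ^ (t + 2) with hY
  have hE' : E ≤ |CX| * M := hE.trans (mul_le_mul_of_nonneg_right (le_abs_self _) hM0)
  have hN' := abs_le.1 hN
  have hN1 : CZ * M ≤ |CZ| * M := mul_le_mul_of_nonneg_right (le_abs_self _) hM0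
  have hD' := abs_le.1 hD
  have hD1 : CC * M ≤ |CC| * M := mul_le_mul_of_nonneg_right (le_abs_self _) hM0
  have hKE : K * (2 * E) ≤ K * (2 * (|CX| * M)) := by gcongr
  -- bound of `F * P`
  have h1 : F * P ≤ (t + 2) * Y + |CZ| * M := by
    have : F * (F * P) ≤ F * ((t + 2) * Y + |CZ| * M) := by
      calc F * (F * P) = F ^ 2 * P := by ring
        _ ≤ N := hb1
        _ ≤ (t + 2) * F * Y + CZ * M := by linarith [hN'.2]
        _ ≤ (t + 2) * F * Y + |CZ| * M := by linarith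
        _ ≤ (t + 2) * F * Y + F * (|CZ| * M) := by
          have : 0 ≤ |CZ| * M := by positivity
          nlinarith
        _ = F * ((t + 2) * Y + |CZ| * M) := by ring
    exact le_of_mul_le_mul_left this (by linarith)
  have h2 : (t + 2) * Y - |CZ| * M - K * (2 * (|CX| * M)) ≤ F * P := by
    have : F * ((t + 2) * Y - |CZ| * M - K * (2 * (|CX| * M))) ≤ F * (F * P) := by
      have q1 : 0 ≤ |CZ| * M := by positivity
      have q2 : 0 ≤ K * (2 * (|CX| * M)) := by positivity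
      calc F * ((t + 2) * Y - |CZ| * M - K * (2 * (|CX| * M)))
          = (t + 2) * F * Y - F * (|CZ| * M) - F * (K * (2 * (|CX| * M))) := by ring
        _ ≤ (t + 2) * F * Y - |CZ| * M - K * (2 * (|CX| * M)) := by nlinarith
        _ ≤ N - K * (2 * E) := by linarith [hN'.1]
        _ ≤ F ^ 2 * P := by linarith
        _ = F * (F * P) := by ring
    exact le_of_mul_le_mul_left this (by linarith)
  have e4 : ((t : ℝ) + 2 + 1) * Y = (t + 2) * Y + Y := by ring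
  rw [e4, abs_le]
  have e5 : (|CZ| + K * (2 * |CX|) + |CC|) * M = |CZ| * M + K * (2 * (|CX| * M)) + |CC| * M := by
    ring
  have e6 : F * (P + Dg) = F * P + F * Dg := by ring
  have q3 : 0 ≤ K * (2 * (|CX| * M)) := by positivity
  rw [e5, e6]
  constructor
  · linarith [hD'.1]
  · linarith [hD'.2]

end

end Pool.Agent.H80.GC
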