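import Pool.Agent.H80.GC.Blk

/-!
# Module U4: upper bounds with the defect of the last block
-/

set_option autoImplicit false

open Finset Pool.Agent.H23.GW Pool.Agent.H23.GC
open scoped Classical Nat

namespace Pool.Agent.H80.GC4

noncomputable section

theorem u4 (hSY : T_SY) (hW2 : T_W2) (hZU : T_ZU) : T_U4 := by
  intro ι _ G _ ev hPC
  refine ⟨?_, ?_, ?_⟩
  · rw [z9_eq hSY, al_eq hSY, mul_sum, ← sum_add_distrib]
    refine (sum_le_card_nsmul _ _ 24 fun w _ => cont_le hW2 hPC w).trans ?_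
    rw [smul_eq_mul, mul_comm]
    exact Nat.mul_le_mul_left _ cardW5
  · rw [z10c_eq hSY, ga_eq hSY, mul_sum, ← sum_add_distrib]
    refine (sum_le_card_nsmul _ _ 24 fun w _ => cont_le hW2 hPC w).trans ?_
    rw [smul_eq_mul, mul_comm]
    exact Nat.mul_le_mul_left _ cardW6c
  · have h := ((hZU 4 ι G ev hPC le_rfl (Fin 10)).2 (by simp) 0 1 2 3 4 5 (by decide)).1
    unfold z10b
    have e : (4 : ℕ)! = 24 := by decide
    rw [e] at h
    convert h using 2

end

end Pool.Agent.H80.GC4
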