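import Pool.Agent.H23.GC.Targets
import Pool.Agent.H80.GC.S

/-! Module Y of gc_modules (MP_684e05_nt): first and second moments. -/

set_option autoImplicit false

open Finset Pool.Agent.H23.GW Pool.Agent.H23.GC
open scoped Classical Nat

namespace Pool.Agent.H80.GC

noncomputable section

variable {ι : Type} [Fintype ι] {G : Type} [AddCommGroup G]

theorem sum_fib {M : Type*} [AddCommMonoid M] {U W : Finset (ι → ℤ)} (ev : (ι → ℤ) →+ G)
    (h : ∀ c ∈ W, ∃! d : ι → ℤ, d ∈ U ∧ ev d = ev c) (g : (ι → ℤ) → M) :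
    ∑ d ∈ U, ∑ c ∈ W with ev c = ev d, g c = ∑ c ∈ W, g c := by
  rw [Finset.sum_comm' (t' := W) (s' := fun c => {d ∈ U | ev d = ev c})]
  · refine Finset.sum_congr rfl fun c hc => ?_
    obtain ⟨d, ⟨hd1, hd2⟩, huniq⟩ := h c hc
    have : ({d ∈ U | ev d = ev c} : Finset (ι → ℤ)) = {d} := by
      ext d'
      rw [mem_filter, mem_singleton]
      constructor
      · intro h'
        exact huniq d' h'
      · rintro rfl
        exact ⟨hd1, hd2⟩
    rw [this, Finset.sum_singleton]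
  · intro d c
    rw [mem_filter, mem_filter]
    constructor
    · rintro ⟨h1, h2, h3⟩
      exact ⟨⟨h1, h3.symm⟩, h2⟩
    · rintro ⟨⟨h1, h3⟩, h2⟩
      exact ⟨h1, h2, h3.symm⟩

theorem count2 {U W : Finset (ι → ℤ)} (ev : (ι → ℤ) →+ G)
    (h : ∀ c ∈ W, ∃! d : ι → ℤ, d ∈ U ∧ ev d = ev c) (p r : (ι → ℤ) → Prop)
    [DecidablePred p] [DecidablePred r] :
    ∑ d ∈ U, #{c ∈ W | ev c = ev d ∧ p c} * #{c ∈ W | ev c = ev d ∧ r c} =
      #{q ∈ W ×ˢ W | ev q.1 = ev q.2 ∧ p q.1 ∧ r q.2} := by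
  have h1 : #{q ∈ W ×ˢ W | ev q.1 = ev q.2 ∧ p q.1 ∧ r q.2} =
      ∑ c ∈ W, ∑ c' ∈ W, if ev c = ev c' ∧ p c ∧ r c' then 1 else 0 := by
    rw [Finset.card_filter, Finset.sum_product]
  rw [h1, ← sum_fib ev h]
  refine Finset.sum_congr rfl fun d _ => ?_
  rw [Finset.card_filter, Finset.card_filter, Finset.sum_mul_sum, Finset.sum_filter]
  refine Finset.sum_congr rfl fun c _ => ?_
  by_cases hc : ev c = ev d
  · rw [if_pos hc]
    refine Finset.sum_congr rfl fun c' _ => ?_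
    have he : (ev d = ev c') ↔ (ev c' = ev d) := eq_comm
    by_cases hp : p c <;> by_cases hc' : ev c' = ev d <;> by_cases hr : r c' <;>
      simp [hc, hp, hc', hr, he]
  · rw [if_neg hc]
    simp [hc]

theorem count1 {U W : Finset (ι → ℤ)} (ev : (ι → ℤ) →+ G) (p r : (ι → ℤ) → Prop)
    [DecidablePred p] [DecidablePred r] :
    ∑ d ∈ U, (if p d then #{c ∈ W | ev c = ev d ∧ r c} else 0) =
      #{q ∈ U ×ˢ W | ev q.1 = ev q.2 ∧ p q.1 ∧ r q.2} := by
  rw [Finset.card_filter, Finset.sum_product]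
  refine Finset.sum_congr rfl fun d _ => ?_
  by_cases hp : p d
  · rw [if_pos hp, Finset.card_filter]
    refine Finset.sum_congr rfl fun c _ => ?_
    have he : (ev d = ev c) ↔ (ev c = ev d) := eq_comm
    by_cases h1 : ev c = ev d <;> by_cases h2 : r c <;> simp [h1, h2, hp, he]
  · rw [if_neg hp]
    simp [hp]

theorem ell_le_of_mem (hV : T_V) {n : ℕ} {c : ι → ℤ} (hc : c ∈ Vn ι n) : ell c ≤ n := by
  have := ell_le_nrm c
  rwa [(hV ι n c).1 hc] at this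

/-- the defect of a coset -/
def DD (s : ℕ) (ev : (ι → ℤ) →+ G) (d : ι → ℤ) : ℝ :=
  ∑ c ∈ Vn ι (s + 1) with ev c = ev d, ((s : ℝ) + 1 - ell c)

/-- `y = D - ell` -/
theorem y_eq (hI : T_I) {s : ℕ} (hs : 1 ≤ s) (ev : (ι → ℤ) →+ G) (hP : PC s ev) {d : ι → ℤ}
    (hd : d ∈ Vn ι s) :
    ((s : ℝ) + 1) * nb s ev d - 2 * Fintype.card ι = DD s ev d - ell d := by
  have h := (hI ι G s ev hP hs).1 d hd
  have h' : ((∑ c ∈ Vn ι (s + 1) with ev c = ev d, (ell c : ℝ)) + ell d) =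
      2 * Fintype.card ι := by
    exact_mod_cast h
  unfold DD nb
  rw [Finset.sum_sub_distrib, Finset.sum_const, nsmul_eq_mul]
  linarith

/-- the first identity -/
theorem first_id (hI : T_I) (hF : T_F) {s : ℕ} (hs : 1 ≤ s) (ev : (ι → ℤ) →+ G) (hP : PC s ev) :
    (∑ d ∈ Vn ι s, (((s : ℤ) + 1) * nb s ev d - 2 * Fintype.card ι)) =
      ∑ d ∈ Vn ι s, ((s : ℤ) - ell d) := by
  have hI' := hI ι G s ev hP hs
  have h1 : ∑ d ∈ Vn ι s, nb s ev d = #(Vn ι (s + 1)) := by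
    have := sum_fib ev hI'.2 (fun _ => (1 : ℕ))
    simp only [Finset.sum_const, smul_eq_mul, mul_one] at this
    exact this
  have h2 : ∑ d ∈ Vn ι s, ∑ c ∈ Vn ι (s + 1) with ev c = ev d, ell c = ∑ c ∈ Vn ι (s + 1), ell c :=
    sum_fib ev hI'.2 ell
  have h3 : (∑ d ∈ Vn ι s, ∑ c ∈ Vn ι (s + 1) with ev c = ev d, ell c) + ∑ d ∈ Vn ι s, ell d =
      #(Vn ι s) * (2 * Fintype.card ι) := by
    rw [← Finset.sum_add_distrib, Finset.sum_congr rfl fun d hd => hI'.1 d hd, Finset.sum_const,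
      smul_eq_mul]
  rw [h2] at h3
  have h4 := hF ι s
  rw [Finset.sum_sub_distrib, Finset.sum_sub_distrib, ← Finset.mul_sum, Finset.sum_const,
    Finset.sum_const, nsmul_eq_mul, nsmul_eq_mul, ← Nat.cast_sum, ← Nat.cast_sum, h1]
  have h3' : ((∑ c ∈ Vn ι (s + 1), ell c : ℕ) : ℤ) + ((∑ d ∈ Vn ι s, ell d : ℕ) : ℤ) =
      #(Vn ι s) * (2 * Fintype.card ι) := by exact_mod_cast h3
  have h4' : ((∑ c ∈ Vn ι (s + 1), ell c : ℕ) : ℤ) + s * #(Vn ι s) =
      (s + 1) * #(Vn ι (s + 1)) := by exact_mod_cast h4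
  linarith

/-- numbers of vectors in a coset -/
def rh (s : ℕ) (ev : (ι → ℤ) →+ G) (d : ι → ℤ) : ℕ :=
  #{c ∈ Vn ι (s + 1) | ev c = ev d ∧ ell c = s}

def bh (s : ℕ) (ev : (ι → ℤ) →+ G) (d : ι → ℤ) : ℕ :=
  #{c ∈ Vn ι (s + 1) | ev c = ev d ∧ ell c < s}

def ch (s : ℕ) (ev : (ι → ℤ) →+ G) (d : ι → ℤ) : ℕ :=
  #{c ∈ Vn ι (s + 1) | ev c = ev d ∧ ell c ≤ s}

theorem DD_bounds (hV : T_V) (s : ℕ) (ev : (ι → ℤ) →+ G) (d : ι → ℤ) :
    (rh s ev d : ℝ) ≤ DD s ev d ∧ DD s ev d ≤ rh s ev d + (s + 1) * bh s ev d ∧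
      DD s ev d ≤ (s + 1) * ch s ev d := by
  have e0 : DD s ev d = ∑ c ∈ Vn ι (s + 1), if ev c = ev d then ((s : ℝ) + 1 - ell c) else 0 := by
    unfold DD
    rw [Finset.sum_filter]
  have e1 : (rh s ev d : ℝ) = ∑ c ∈ Vn ι (s + 1), if ev c = ev d ∧ ell c = s then (1 : ℝ) else 0 := by
    unfold rh
    rw [Finset.card_filter]
    push_cast
    rfl
  have e2 : (bh s ev d : ℝ) = ∑ c ∈ Vn ι (s + 1), if ev c = ev d ∧ ell c < s then (1 : ℝ) else 0 := by
    unfold bh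
    rw [Finset.card_filter]
    push_cast
    rfl
  have e3 : (ch s ev d : ℝ) = ∑ c ∈ Vn ι (s + 1), if ev c = ev d ∧ ell c ≤ s then (1 : ℝ) else 0 := by
    unfold ch
    rw [Finset.card_filter]
    push_cast
    rfl
  have hle : ∀ c ∈ Vn ι (s + 1), (ell c : ℝ) ≤ s + 1 := fun c hc => by
    exact_mod_cast ell_le_of_mem hV hc
  have hl0 : ∀ c : ι → ℤ, (0 : ℝ) ≤ ell c := fun c => Nat.cast_nonneg _
  rw [e0, e1, e2, e3, Finset.mul_sum, Finset.mul_sum, ← Finset.sum_add_distrib]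
  refine ⟨Finset.sum_le_sum fun c hc => ?_, Finset.sum_le_sum fun c hc => ?_,
    Finset.sum_le_sum fun c hc => ?_⟩
  · have := hle c hc
    by_cases h1 : ev c = ev d
    · by_cases h2 : ell c = s
      · rw [if_pos ⟨h1, h2⟩, if_pos h1, h2]
        linarith
      · rw [if_neg (fun h => h2 h.2), if_pos h1]
        linarith
    · rw [if_neg (fun h => h1 h.1), if_neg h1]
  · have h0 := hl0 c
    by_cases h1 : ev c = ev d
    · rcases lt_trichotomy (ell c) s with h2 | h2 | h2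
      · rw [if_pos h1, if_neg (fun h => by omega), if_pos ⟨h1, h2⟩]
        linarith
      · rw [if_pos h1, if_pos ⟨h1, h2⟩, if_neg (fun h => by omega), h2]
        linarith
      · have h3 : ell c = s + 1 := by
          have := ell_le_of_mem hV hc
          omega
        rw [if_pos h1, if_neg (fun h => by omega), if_neg (fun h => by omega), h3]
        push_cast
        linarith
    · rw [if_neg h1, if_neg (fun h => h1 h.1), if_neg (fun h => h1 h.1)]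
      simp
  · have h0 := hl0 c
    by_cases h1 : ev c = ev d
    · rcases le_or_gt (ell c) s with h2 | h2
      · rw [if_pos h1, if_pos ⟨h1, h2⟩]
        linarith
      · have h3 : ell c = s + 1 := by
          have := ell_le_of_mem hV hc
          omega
        rw [if_pos h1, if_neg (fun h => by omega), h3]
        push_cast
        linarith
    · rw [if_neg h1, if_neg (fun h => h1 h.1)]
      simp

/-- Module Y. -/
theorem modY (hV : T_V) (hI : T_I) (hF : T_F) (hC : T_C) (hX : T_X) (hS : T_S) : T_Y := by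
  intro s hs
  obtain ⟨CX, hCX⟩ := hX s hs
  obtain ⟨CS, hCS⟩ := hS s hs
  obtain ⟨Ca, hCa⟩ := hC.1 s (by omega)
  obtain ⟨Cc, hCc⟩ := hC.2.2 s (s - 1)
  refine ⟨|CS| + (s - 1)! * ((2 * (s + 1) + (s + 1) ^ 2) * |CX|) +
    2 * (s - 1)! * ((s + 1) * s * |CX|) + (s - 1)! * (s ^ 2 * |Cc|) +
    s * (|Ca| + s ! * |Cc|), ?_⟩
  intro ι _ G _ _ ev hP hodd hι
  refine ⟨first_id hI hF (by omega) ev hP, ?_⟩
  have hI' := hI ι G s ev hP (by omega)
  set m : ℝ := (Fintype.card ι : ℝ) with hm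
  have hm0 : 0 ≤ m := Nat.cast_nonneg _
  set M : ℝ := m ^ (s - 1) with hM
  have hM0 : 0 ≤ M := pow_nonneg hm0 _
  set Y : ℝ := (2 * m) ^ s with hY
  -- replace `y` by `D - ell`
  have hy : ∑ d ∈ Vn ι s, (((s : ℝ) + 1) * nb s ev d - 2 * m) ^ 2 =
      ∑ d ∈ Vn ι s, (DD s ev d - ell d) ^ 2 :=
    Finset.sum_congr rfl fun d hd => by rw [hm, y_eq hI (by omega) ev hP hd]
  have hexp : ∑ d ∈ Vn ι s, (DD s ev d - ell d) ^ 2 =
      ∑ d ∈ Vn ι s, (DD s ev d) ^ 2 - 2 * ∑ d ∈ Vn ι s, DD s ev d * ell d +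
        ∑ d ∈ Vn ι s, (ell d : ℝ) ^ 2 := by
    rw [Finset.mul_sum, ← Finset.sum_sub_distrib, ← Finset.sum_add_distrib]
    refine Finset.sum_congr rfl fun d _ => ?_
    ring
  -- the counts
  have hb := DD_bounds hV s ev (ι := ι) (G := G)
  have hrho : ∑ d ∈ Vn ι s, (rh s ev d : ℝ) ^ 2 =
      (#{q ∈ Vn ι (s + 1) ×ˢ Vn ι (s + 1) | ev q.1 = ev q.2 ∧ ell q.1 = s ∧ ell q.2 = s} : ℝ) := by
    have h := count2 ev hI'.2 (fun c => ell c = s) (fun c => ell c = s)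
    rw [← h]
    push_cast
    refine Finset.sum_congr rfl fun d _ => ?_
    rw [sq]
    rfl
  set X2 : ℝ := (#{q ∈ Vn ι (s + 1) ×ˢ Vn ι (s + 1) | ev q.1 = ev q.2 ∧ ell q.1 ≤ s ∧
    ell q.2 < s} : ℝ) with hX2
  have hX2' : X2 ≤ |CX| * M := (hCX ι G ev hP hodd hι).2.trans
    (mul_le_mul_of_nonneg_right (le_abs_self _) hM0)
  have hrb : ∑ d ∈ Vn ι s, (rh s ev d : ℝ) * bh s ev d ≤ X2 := by
    have h := count2 ev hI'.2 (fun c => ell c = s) (fun c => ell c < s)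
    have h' : ∑ d ∈ Vn ι s, (rh s ev d : ℝ) * bh s ev d =
        (#{q ∈ Vn ι (s + 1) ×ˢ Vn ι (s + 1) | ev q.1 = ev q.2 ∧ ell q.1 = s ∧ ell q.2 < s} : ℝ) := by
      rw [← h]
      push_cast
      rfl
    rw [h', hX2]
    refine Nat.cast_le.2 (Finset.card_le_card fun q hq => ?_)
    rw [mem_filter] at hq ⊢
    exact ⟨hq.1, hq.2.1, hq.2.2.1.le, hq.2.2.2⟩
  have hbb : ∑ d ∈ Vn ι s, (bh s ev d : ℝ) * bh s ev d ≤ X2 := by
    have h := count2 ev hI'.2 (fun c => ell c < s) (fun c => ell c < s)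
    have h' : ∑ d ∈ Vn ι s, (bh s ev d : ℝ) * bh s ev d =
        (#{q ∈ Vn ι (s + 1) ×ˢ Vn ι (s + 1) | ev q.1 = ev q.2 ∧ ell q.1 < s ∧ ell q.2 < s} : ℝ) := by
      rw [← h]
      push_cast
      rfl
    rw [h', hX2]
    refine Nat.cast_le.2 (Finset.card_le_card fun q hq => ?_)
    rw [mem_filter] at hq ⊢
    exact ⟨hq.1, hq.2.1, hq.2.2.1.le, hq.2.2.2⟩
  set S2 : ℝ := ∑ d ∈ Vn ι s, (rh s ev d : ℝ) ^ 2 with hS2
  have hSq := hCS ι G ev hP hodd hι
  rw [← hrho] at hSq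
  -- `A`
  set A : ℝ := ∑ d ∈ Vn ι s, (DD s ev d) ^ 2 with hA
  have hA1 : S2 ≤ A := Finset.sum_le_sum fun d _ =>
    pow_le_pow_left₀ (Nat.cast_nonneg _) (hb d).1 2
  have hA2 : A ≤ S2 + (2 * (s + 1) + (s + 1) ^ 2) * X2 := by
    calc A ≤ ∑ d ∈ Vn ι s, ((rh s ev d : ℝ) ^ 2 + (2 * (s + 1)) * ((rh s ev d : ℝ) * bh s ev d) +
          (s + 1) ^ 2 * ((bh s ev d : ℝ) * bh s ev d)) := by
          refine Finset.sum_le_sum fun d _ => ?_
          have h1 : (0 : ℝ) ≤ DD s ev d := (Nat.cast_nonneg _).trans (hb d).1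
          calc (DD s ev d) ^ 2 ≤ (rh s ev d + (s + 1) * bh s ev d) ^ 2 :=
                pow_le_pow_left₀ h1 (hb d).2.1 2
            _ = _ := by ring
      _ = S2 + (2 * (s + 1)) * ∑ d ∈ Vn ι s, ((rh s ev d : ℝ) * bh s ev d) +
          (s + 1) ^ 2 * ∑ d ∈ Vn ι s, ((bh s ev d : ℝ) * bh s ev d) := by
          rw [Finset.sum_add_distrib, Finset.sum_add_distrib, ← Finset.mul_sum, ← Finset.mul_sum]
      _ ≤ S2 + (2 * (s + 1)) * X2 + (s + 1) ^ 2 * X2 := by gcongr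
      _ = _ := by ring
  -- `B`
  set U : ℝ := (#(Vn ι s) : ℝ) with hU
  have hsumD : ∑ d ∈ Vn ι s, DD s ev d = s * U := by
    have h1 := first_id hI hF (by omega) ev hP
    have h1' : (∑ d ∈ Vn ι s, (((s : ℝ) + 1) * nb s ev d - 2 * m)) =
        ∑ d ∈ Vn ι s, ((s : ℝ) - ell d) := by
      rw [hm]
      exact_mod_cast h1
    rw [Finset.sum_congr rfl fun d hd => y_eq hI (by omega) ev hP hd, Finset.sum_sub_distrib,
      Finset.sum_sub_distrib, Finset.sum_const, nsmul_eq_mul] at h1'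
    rw [hU]
    linarith
  set eB : ℝ := ∑ d ∈ Vn ι s, DD s ev d * (s - ell d) with heB
  have hB : ∑ d ∈ Vn ι s, DD s ev d * ell d = s * (s * U) - eB := by
    rw [← hsumD, Finset.mul_sum, heB, ← Finset.sum_sub_distrib]
    refine Finset.sum_congr rfl fun d _ => ?_
    ring
  have hld : ∀ d ∈ Vn ι s, (ell d : ℝ) ≤ s := fun d hd => by
    exact_mod_cast ell_le_of_mem hV hd
  have heB0 : 0 ≤ eB := Finset.sum_nonneg fun d hd =>
    mul_nonneg ((Nat.cast_nonneg _).trans (hb d).1) (by linarith [hld d hd])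
  have heB1 : eB ≤ (s + 1) * s * (|CX| * M) := by
    have h := (hCX ι G ev hP hodd hι).1
    rw [← count1 ev (fun d => ell d < s) (fun c => ell c ≤ s)] at h
    push_cast at h
    have h2 : eB ≤ ∑ d ∈ Vn ι s, (s + 1) * s * (if ell d < s then (ch s ev d : ℝ) else 0) := by
      refine Finset.sum_le_sum fun d hd => ?_
      have h3 := hld d hd
      have h0 : (0 : ℝ) ≤ ell d := Nat.cast_nonneg _
      have h4 := (hb d).2.2
      have h5 : (0 : ℝ) ≤ ch s ev d := Nat.cast_nonneg _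
      have hs0 : (0 : ℝ) ≤ s := Nat.cast_nonneg _
      split_ifs with hlt
      · calc DD s ev d * (s - ell d) ≤ ((s + 1) * ch s ev d) * s := by
              refine mul_le_mul h4 (by linarith) (by linarith) (by positivity)
          _ = (s + 1) * s * ch s ev d := by ring
      · have : ell d = s := le_antisymm (ell_le_of_mem hV hd) (not_lt.1 hlt)
        rw [this]
        simp
    refine h2.trans ?_
    rw [← Finset.mul_sum]
    have hs0 : (0 : ℝ) ≤ (s + 1) * s := by positivity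
    refine mul_le_mul_of_nonneg_left ?_ hs0
    refine le_trans (le_of_eq ?_) (h.trans (mul_le_mul_of_nonneg_right (le_abs_self _) hM0))
    rfl
  -- the last sum
  set low : ℝ := (#{c ∈ Vn ι s | ell c ≤ s - 1} : ℝ) with hlow
  have hlow' : low ≤ |Cc| * M := (hCc ι hι).trans
    (mul_le_mul_of_nonneg_right (le_abs_self _) hM0)
  have hlow0 : 0 ≤ low := Nat.cast_nonneg _
  have hlows : low = ∑ d ∈ Vn ι s, if ell d ≤ s - 1 then (1 : ℝ) else 0 := by
    rw [hlow, Finset.card_filter]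
    push_cast
    rfl
  set eC : ℝ := ∑ d ∈ Vn ι s, ((s : ℝ) ^ 2 - (ell d : ℝ) ^ 2) with heC
  have hCl : ∑ d ∈ Vn ι s, (ell d : ℝ) ^ 2 = s ^ 2 * U - eC := by
    rw [heC, Finset.sum_sub_distrib, Finset.sum_const, nsmul_eq_mul, hU]
    ring
  have heC0 : 0 ≤ eC := Finset.sum_nonneg fun d hd => by
    have h0 : (0 : ℝ) ≤ ell d := Nat.cast_nonneg _
    nlinarith [hld d hd]
  have heC1 : eC ≤ s ^ 2 * low := by
    rw [hlows, Finset.mul_sum]
    refine Finset.sum_le_sum fun d hd => ?_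
    have h0 : (0 : ℝ) ≤ ell d := Nat.cast_nonneg _
    split_ifs with hlt
    · nlinarith
    · have : ell d = s := by
        have := ell_le_of_mem hV hd
        omega
      rw [this]
      simp
  -- `U`
  have hUs : U = (#{c ∈ Vn ι s | ell c = s} : ℝ) + low := by
    rw [hU, hlow, ← Nat.cast_add]
    congr 1
    rw [← Finset.card_filter_add_card_filter_not (s := Vn ι s) (fun c => ell c = s)]
    congr 2
    ext c
    rw [mem_filter, mem_filter]
    constructor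
    · rintro ⟨h1, h2⟩
      exact ⟨h1, by have := ell_le_of_mem hV h1; omega⟩
    · rintro ⟨h1, h2⟩
      exact ⟨h1, by omega⟩
  have hUa := abs_le.1 (hCa ι hι)
  have hCaM : Ca * M ≤ |Ca| * M := mul_le_mul_of_nonneg_right (le_abs_self _) hM0
  have hUY : |(s ! : ℝ) * U - Y| ≤ (|Ca| + s ! * |Cc|) * M := by
    have h1 : (0 : ℝ) ≤ (s ! : ℝ) := Nat.cast_nonneg _
    have h2 : (s ! : ℝ) * low ≤ s ! * (|Cc| * M) := mul_le_mul_of_nonneg_left hlow' h1
    have h3 : 0 ≤ (s ! : ℝ) * low := mul_nonneg h1 hlow0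
    have h4 : 0 ≤ (s ! : ℝ) * (|Cc| * M) := by positivity
    rw [hUs, mul_add, abs_le]
    have e : (|Ca| + s ! * |Cc|) * M = |Ca| * M + s ! * (|Cc| * M) := by ring
    rw [e]
    constructor
    · linarith [hUa.1]
    · linarith [hUa.2]
  -- assembly
  set f : ℝ := ((s - 1)! : ℝ) with hf
  have hf0 : 0 ≤ f := Nat.cast_nonneg _
  have hfs : (s ! : ℝ) = s * f := by
    rw [hf]
    obtain ⟨t, rfl⟩ : ∃ t, s = t + 1 := ⟨s - 1, by omega⟩
    rw [Nat.factorial_succ, Nat.add_sub_cancel]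
    push_cast
    ring
  rw [hy, hexp, hB, hCl]
  have hSqM : CS * M ≤ |CS| * M := mul_le_mul_of_nonneg_right (le_abs_self _) hM0
  have hSq' := abs_le.1 hSq
  have hUY' := abs_le.1 hUY
  have hs0 : (0 : ℝ) ≤ s := Nat.cast_nonneg _
  have g1 : f * S2 ≤ f * A := mul_le_mul_of_nonneg_left hA1 hf0
  have g2 : f * A ≤ f * S2 + f * ((2 * (s + 1) + (s + 1) ^ 2) * (|CX| * M)) := by
    rw [← mul_add]
    refine mul_le_mul_of_nonneg_left (hA2.trans ?_) hf0
    gcongr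
  have g3 : f * eB ≤ f * ((s + 1) * s * (|CX| * M)) := mul_le_mul_of_nonneg_left heB1 hf0
  have g4 : f * eC ≤ f * (s ^ 2 * (|Cc| * M)) := by
    refine mul_le_mul_of_nonneg_left (heC1.trans ?_) hf0
    gcongr
  have g5 : 0 ≤ f * eB := mul_nonneg hf0 heB0
  have g6 : 0 ≤ f * eC := mul_nonneg hf0 heC0
  have g7 : s * (-((|Ca| + s ! * |Cc|) * M)) ≤ s * ((s ! : ℝ) * U - Y) :=
    mul_le_mul_of_nonneg_left hUY'.1 hs0
  have g8 : s * ((s ! : ℝ) * U - Y) ≤ s * ((|Ca| + s ! * |Cc|) * M) :=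
    mul_le_mul_of_nonneg_left hUY'.2 hs0
  have p1 : 0 ≤ f * ((2 * (s + 1) + (s + 1) ^ 2) * (|CX| * M)) := by positivity
  have p2 : 0 ≤ f * ((s + 1) * s * (|CX| * M)) := by positivity
  have p3 : 0 ≤ f * (s ^ 2 * (|Cc| * M)) := by positivity
  have e1 : f * (A - 2 * (s * (s * U) - eB) + (s ^ 2 * U - eC)) - Y =
      (f * A - (s + 1) * Y) + 2 * (f * eB) - f * eC - s * ((s ! : ℝ) * U - Y) := by
    rw [hfs]
    ring
  have e2 : (|CS| + f * ((2 * (s + 1) + (s + 1) ^ 2) * |CX|) + 2 * f * ((s + 1) * s * |CX|) +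
      f * (s ^ 2 * |Cc|) + s * (|Ca| + s ! * |Cc|)) * M =
      |CS| * M + f * ((2 * (s + 1) + (s + 1) ^ 2) * (|CX| * M)) +
        2 * (f * ((s + 1) * s * (|CX| * M))) + f * (s ^ 2 * (|Cc| * M)) +
        s * ((|Ca| + s ! * |Cc|) * M) := by ring
  rw [e1, e2, abs_le]
  have e3 : s * (-((|Ca| + s ! * |Cc|) * M)) = -(s * ((|Ca| + s ! * |Cc|) * M)) := by ring
  rw [e3] at g7
  constructor
  · linarith [hSq'.1]
  · linarith [hSq'.2]

end

end Pool.Agent.H80.GC
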