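import Pool.Agent.H23.GC.Targets3
import Pool.Agent.H59.GC.Z

/-!
# Words in two blocks, radius four (modules U4, G5, L4)
-/

set_option autoImplicit false

open Finset Pool.Agent.H23.GW Pool.Agent.H23.GC
open scoped Classical Nat

namespace Pool.Agent.H80.GC4

noncomputable section

variable {ι : Type} [Fintype ι] {G : Type} [AddCommGroup G] {ev : (ι → ℤ) →+ G}

/-- the continuations of a word with the property `Q` -/
def cont (ev : (ι → ℤ) →+ G) {κ κ' : Type} [Fintype κ] [Fintype κ'] (w : κ → ι × Bool)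
    (Q : (κ' → ι × Bool) → Prop) : Finset (κ' → ι × Bool) :=
  {u | Sum.elim w u ∈ Zr ev (κ ⊕ κ') ∧ Q u}

theorem mem_cont {κ κ' : Type} [Fintype κ] [Fintype κ'] {w : κ → ι × Bool}
    {Q : (κ' → ι × Bool) → Prop} {u : κ' → ι × Bool} :
    u ∈ cont ev w Q ↔ Sum.elim w u ∈ Zr ev (κ ⊕ κ') ∧ Q u := by
  unfold cont
  simp

theorem blk_sum {κ κ' : Type} [Fintype κ] [Fintype κ'] (P : (κ → ι × Bool) → Prop)
    (Q : (κ' → ι × Bool) → Prop) (W : Finset (κ → ι × Bool)) (hW : ∀ w, w ∈ W ↔ P w) :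
    #{z ∈ Zr ev (κ ⊕ κ') | P (z ∘ Sum.inl) ∧ Q (z ∘ Sum.inr)} =
      ∑ w ∈ W, #(cont ev w Q) := by
  rw [Finset.card_eq_sum_card_fiberwise (f := fun z : κ ⊕ κ' → ι × Bool => z ∘ Sum.inl)
    (t := W)]
  · refine sum_congr rfl fun w hw => ?_
    rw [hW] at hw
    refine Finset.card_bij' (fun z _ => z ∘ Sum.inr) (fun u _ => Sum.elim w u) ?_ ?_ ?_ ?_
    · intro z hz
      rw [mem_cont]
      simp only [mem_filter, mem_univ, true_and] at hz
      obtain ⟨⟨h1, h2, h3⟩, h4⟩ := hz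
      rw [← h4, Sum.elim_comp_inl_inr]
      exact ⟨h1, h3⟩
    · intro u hu
      rw [mem_cont] at hu
      simp only [mem_filter, mem_univ, true_and]
      rw [Sum.elim_comp_inl, Sum.elim_comp_inr]
      exact ⟨⟨hu.1, hw, hu.2⟩, rfl⟩
    · intro z hz
      simp only [mem_filter] at hz
      rw [← hz.2, Sum.elim_comp_inl_inr]
    · intro u _
      simp
  · intro z hz
    simp only [coe_filter, Set.mem_ofPred_eq, mem_univ, true_and] at hz
    exact (hW _).2 hz.2.1

theorem elim_mem {κ κ' : Type} [Fintype κ] [Fintype κ'] {w : κ → ι × Bool}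
    {u : κ' → ι × Bool} (h : Sum.elim w u ∈ Zr ev (κ ⊕ κ')) :
    nrm (vs w) = Fintype.card κ ∧ nrm (vs u) = Fintype.card κ' ∧ ev (vs w) = - ev (vs u) := by
  simp only [Zr, mem_filter, mem_univ, true_and] at h
  obtain ⟨h1, h2⟩ := h
  rw [Pool.Agent.H59.GC.vs_sum, Fintype.card_sum] at h1
  rw [Pool.Agent.H59.GC.vs_sum, map_add] at h2
  have a1 := Pool.Agent.H59.GC.nrm_vs_le w
  have a2 := Pool.Agent.H59.GC.nrm_vs_le u
  have a3 := Pool.Agent.H2.GC.nrm_triangle (vs w) (vs u)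
  exact ⟨by omega, by omega, eq_neg_of_add_eq_zero_left h2⟩

/-- the words of a vector -/
def wds {κ : Type} [Fintype κ] (v : ι → ℤ) (Q : (κ → ι × Bool) → Prop) :
    Finset (κ → ι × Bool) := {u | vs u = v ∧ Q u}

omit [Fintype ι] in
theorem mem_wds {κ : Type} [Fintype κ] [Fintype ι] {v : ι → ℤ} {Q : (κ → ι × Bool) → Prop}
    {u : κ → ι × Bool} : u ∈ wds v Q ↔ vs u = v ∧ Q u := by
  unfold wds
  simp

/-- the continuations of a word on four more letters -/
theorem cont_le (hW2 : T_W2) (hPC : PC 4 ev) {κ : Type} [Fintype κ] (w : κ → ι × Bool) :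
    #(cont ev w fun _ : Fin 4 → ι × Bool => True) +
      6 * #(cont ev w fun u : Fin 4 → ι × Bool => u 0 = u 1) ≤ 24 := by
  by_cases hne : ∃ u : Fin 4 → ι × Bool, Sum.elim w u ∈ Zr ev (κ ⊕ Fin 4)
  · obtain ⟨u₀, hu₀⟩ := hne
    obtain ⟨a1, a2, a3⟩ := elim_mem hu₀
    have hall : ∀ u : Fin 4 → ι × Bool, Sum.elim w u ∈ Zr ev (κ ⊕ Fin 4) → vs u = vs u₀ := by
      intro u hu
      obtain ⟨b1, b2, b3⟩ := elim_mem hu
      rw [Fintype.card_fin] at a2 b2
      refine neg_injective (Pool.Agent.H59.GC.pc_unique hPC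
        (by rw [Pool.Agent.H2.GC.nrm_neg]; omega) (by rw [Pool.Agent.H2.GC.nrm_neg]; omega) ?_)
      rw [map_neg, map_neg, ← a3, ← b3]
    have h := (hW2 ι (Fin 4) (vs u₀) a2).2.1 0 1 (by decide)
    rw [Fintype.card_fin, show Nat.choose 4 2 = 6 by decide, show (4 : ℕ)! = 24 by decide] at h
    have h1 : #(cont ev w fun _ : Fin 4 → ι × Bool => True) ≤
        #{u : Fin 4 → ι × Bool | vs u = vs u₀} := by
      refine card_le_card fun u hu => ?_
      rw [mem_cont] at hu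
      simp only [mem_filter, mem_univ, true_and]
      exact hall u hu.1
    have h2 : #(cont ev w fun u : Fin 4 → ι × Bool => u 0 = u 1) ≤
        #{u : Fin 4 → ι × Bool | vs u = vs u₀ ∧ u 0 = u 1} := by
      refine card_le_card fun u hu => ?_
      rw [mem_cont] at hu
      simp only [mem_filter, mem_univ, true_and]
      exact ⟨hall u hu.1, hu.2⟩
    have h' : 6 * #{u : Fin 4 → ι × Bool | vs u = vs u₀ ∧ u 0 = u 1} +
        #{u : Fin 4 → ι × Bool | vs u = vs u₀} ≤ 24 := by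
      refine le_trans (le_of_eq ?_) h
      congr 1
      · refine congrArg (fun n => 6 * n) (congrArg Finset.card ?_)
        ext u
        simp only [mem_filter, mem_univ, true_and]
      · refine congrArg Finset.card ?_
        ext u
        simp only [mem_filter, mem_univ, true_and]
    have h1' : #(cont ev w fun _ : Fin 4 → ι × Bool => True) ≤
        #{u : Fin 4 → ι × Bool | vs u = vs u₀} := by
      refine h1.trans (le_of_eq (congrArg Finset.card ?_))
      ext u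
      simp only [mem_filter, mem_univ, true_and]
    have h2' : #(cont ev w fun u : Fin 4 → ι × Bool => u 0 = u 1) ≤
        #{u : Fin 4 → ι × Bool | vs u = vs u₀ ∧ u 0 = u 1} := by
      refine h2.trans (le_of_eq (congrArg Finset.card ?_))
      ext u
      simp only [mem_filter, mem_univ, true_and]
    generalize hA : #{u : Fin 4 → ι × Bool | vs u = vs u₀ ∧ u 0 = u 1} = A at h' h2'
    generalize hB : #{u : Fin 4 → ι × Bool | vs u = vs u₀} = B at h' h1'
    omega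
  · have h1 : #(cont ev w fun _ : Fin 4 → ι × Bool => True) = 0 := by
      rw [card_eq_zero, eq_empty_iff_forall_notMem]
      intro u hu
      exact hne ⟨u, (mem_cont.1 hu).1⟩
    have h2 : #(cont ev w fun u : Fin 4 → ι × Bool => u 0 = u 1) = 0 := by
      rw [card_eq_zero, eq_empty_iff_forall_notMem]
      intro u hu
      exact hne ⟨u, (mem_cont.1 hu).1⟩
    rw [h1, h2]
    norm_num

/-- positions: the first block contains `0, 1, 2, 3, 6`, the second `4, 5, 7, 8` -/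
def e9 : Fin 5 ⊕ Fin 4 ≃ Fin 9 where
  toFun := Sum.elim ![0, 1, 2, 3, 6] ![4, 5, 7, 8]
  invFun := ![Sum.inl 0, Sum.inl 1, Sum.inl 2, Sum.inl 3, Sum.inr 0, Sum.inr 1, Sum.inl 4,
    Sum.inr 2, Sum.inr 3]
  left_inv := by
    intro x
    revert x
    decide
  right_inv := by
    intro x
    revert x
    decide

/-- positions: the first block contains `0, 1, 2, 3, 4, 7`, the second `5, 6, 8, 9` -/
def e10 : Fin 6 ⊕ Fin 4 ≃ Fin 10 where
  toFun := Sum.elim ![0, 1, 2, 3, 4, 7] ![5, 6, 8, 9]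
  invFun := ![Sum.inl 0, Sum.inl 1, Sum.inl 2, Sum.inl 3, Sum.inl 4, Sum.inr 0, Sum.inr 1,
    Sum.inl 5, Sum.inr 2, Sum.inr 3]
  left_inv := by
    intro x
    revert x
    decide
  right_inv := by
    intro x
    revert x
    decide

/-- words of the first block -/
def W5 (ι : Type) [Fintype ι] : Finset (Fin 5 → ι × Bool) := {w | w 0 = w 1 ∧ w 2 = w 3}

/-- words of the first block -/
def W6c (ι : Type) [Fintype ι] : Finset (Fin 6 → ι × Bool) :=
  {w | w 0 = w 1 ∧ w 1 = w 2 ∧ w 3 = w 4}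

/-- words of the first block -/
def W6b (ι : Type) [Fintype ι] : Finset (Fin 6 → ι × Bool) :=
  {w | w 0 = w 1 ∧ w 2 = w 3 ∧ w 4 = w 5}

theorem mem_W5 {w : Fin 5 → ι × Bool} : w ∈ W5 ι ↔ w 0 = w 1 ∧ w 2 = w 3 := by
  unfold W5
  simp

theorem mem_W6c {w : Fin 6 → ι × Bool} : w ∈ W6c ι ↔ w 0 = w 1 ∧ w 1 = w 2 ∧ w 3 = w 4 := by
  unfold W6c
  simp

theorem mem_W6b {w : Fin 6 → ι × Bool} : w ∈ W6b ι ↔ w 0 = w 1 ∧ w 2 = w 3 ∧ w 4 = w 5 := by
  unfold W6b
  simp

theorem z9_eq (hSY : T_SY) (ev : (ι → ℤ) →+ G) :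
    z9 ev = ∑ w ∈ W5 ι, #(cont ev w fun _ : Fin 4 → ι × Bool => True) := by
  rw [← blk_sum (ev := ev) (fun w : Fin 5 → ι × Bool => w 0 = w 1 ∧ w 2 = w 3)
      (fun _ : Fin 4 → ι × Bool => True) (W5 ι) (fun w => mem_W5)]
  have h := (hSY ι G ev).1 (Fin 5 ⊕ Fin 4) (Fin 9) e9 (fun z => z 0 = z 1 ∧ z 2 = z 3)
  unfold z9
  refine Eq.trans (by congr!) (h.symm.trans ?_)
  congr 1
  ext z
  simp only [mem_filter, and_true]
  exact Iff.rfl

theorem al_eq (hSY : T_SY) (ev : (ι → ℤ) →+ G) :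
    al ev = ∑ w ∈ W5 ι, #(cont ev w fun u : Fin 4 → ι × Bool => u 0 = u 1) := by
  rw [← blk_sum (ev := ev) (fun w : Fin 5 → ι × Bool => w 0 = w 1 ∧ w 2 = w 3)
      (fun u : Fin 4 → ι × Bool => u 0 = u 1) (W5 ι) (fun w => mem_W5)]
  have h := (hSY ι G ev).1 (Fin 5 ⊕ Fin 4) (Fin 9) e9
    (fun z => z 0 = z 1 ∧ z 2 = z 3 ∧ z 4 = z 5)
  unfold al
  refine Eq.trans (by congr!) (h.symm.trans ?_)
  congr 1
  ext z
  simp only [mem_filter]
  rw [and_assoc]
  exact Iff.rfl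

theorem z10c_eq (hSY : T_SY) (ev : (ι → ℤ) →+ G) :
    z10c ev = ∑ w ∈ W6c ι, #(cont ev w fun _ : Fin 4 → ι × Bool => True) := by
  rw [← blk_sum (ev := ev) (fun w : Fin 6 → ι × Bool => w 0 = w 1 ∧ w 1 = w 2 ∧ w 3 = w 4)
      (fun _ : Fin 4 → ι × Bool => True) (W6c ι) (fun w => mem_W6c)]
  have h := (hSY ι G ev).1 (Fin 6 ⊕ Fin 4) (Fin 10) e10
    (fun z => z 0 = z 1 ∧ z 1 = z 2 ∧ z 3 = z 4)
  unfold z10c
  refine Eq.trans (by congr!) (h.symm.trans ?_)
  congr 1
  ext z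
  simp only [mem_filter, and_true]
  exact Iff.rfl

theorem ga_eq (hSY : T_SY) (ev : (ι → ℤ) →+ G) :
    ga ev = ∑ w ∈ W6c ι, #(cont ev w fun u : Fin 4 → ι × Bool => u 0 = u 1) := by
  rw [← blk_sum (ev := ev) (fun w : Fin 6 → ι × Bool => w 0 = w 1 ∧ w 1 = w 2 ∧ w 3 = w 4)
      (fun u : Fin 4 → ι × Bool => u 0 = u 1) (W6c ι) (fun w => mem_W6c)]
  have h := (hSY ι G ev).1 (Fin 6 ⊕ Fin 4) (Fin 10) e10
    (fun z => z 0 = z 1 ∧ z 1 = z 2 ∧ z 3 = z 4 ∧ z 5 = z 6)
  unfold ga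
  refine Eq.trans (by congr!) (h.symm.trans ?_)
  congr 1
  ext z
  simp only [mem_filter]
  rw [and_assoc, and_assoc]
  exact Iff.rfl

theorem card_letters : Fintype.card (ι × Bool) = 2 * Fintype.card ι := by
  rw [Fintype.card_prod, Fintype.card_bool, mul_comm]

theorem cardW5 : #(W5 ι) ≤ (2 * Fintype.card ι) ^ 3 := by
  have h := Pool.Agent.H59.GC.card_det (W5 ι) {1, 3} (by
      intro w hw w' hw' h
      rw [mem_W5] at hw hw'
      have h0 : w 0 = w' 0 := h 0 (by decide)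
      have h2 : w 2 = w' 2 := h 2 (by decide)
      have h4 : w 4 = w' 4 := h 4 (by decide)
      ext1 a
      fin_cases a
      · exact h0
      · exact hw.1.symm.trans (h0.trans hw'.1)
      · exact h2
      · exact hw.2.symm.trans (h2.trans hw'.2)
      · exact h4)
  rw [card_letters, Fintype.card_fin, show #({1, 3} : Finset (Fin 5)) = 2 by decide] at h
  exact h

theorem cardW6c : #(W6c ι) ≤ (2 * Fintype.card ι) ^ 3 := by
  have h := Pool.Agent.H59.GC.card_det (W6c ι) {1, 2, 4} (by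
      intro w hw w' hw' h
      rw [mem_W6c] at hw hw'
      have h0 : w 0 = w' 0 := h 0 (by decide)
      have h3 : w 3 = w' 3 := h 3 (by decide)
      have h5 : w 5 = w' 5 := h 5 (by decide)
      have h1 : w 1 = w' 1 := hw.1.symm.trans (h0.trans hw'.1)
      ext1 a
      fin_cases a
      · exact h0
      · exact h1
      · exact hw.2.1.symm.trans (h1.trans hw'.2.1)
      · exact h3
      · exact hw.2.2.symm.trans (h3.trans hw'.2.2)
      · exact h5)
  rw [card_letters, Fintype.card_fin, show #({1, 2, 4} : Finset (Fin 6)) = 3 by decide] at h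
  exact h

end

end Pool.Agent.H80.GC4
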